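import Pool.Agent.H122R2.N6.Count

/-! The indicator of the edges with any decidable equality. -/

set_option autoImplicit false
open Finset
open Pool.Agent.H122R2.N6

namespace Pool.Agent.Q113.Hyb

theorem set_eq {V : Type} [DecidableEq V] (x y z : V) (s : Finset V) (h : ∀ t, t ∈ s ↔ t = x ∨ t = y ∨ t = z) :
    s = {x, y, z} := by
  ext t
  rw [h]
  simp

theorem tri_pos {V : Type} [DecidableEq V] {H : Finset (Finset V)} {x y z : V} (h : ({x, y, z} : Finset V) ∈ H) :
    tri H x y z = 1 := by
  unfold tri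
  rw [if_pos]
  have k : ∀ s : Finset V, (∀ t, t ∈ s ↔ t = x ∨ t = y ∨ t = z) → s ∈ H := fun s hs => by
    rw [set_eq x y z s hs]
    exact h
  exact k _ (by intro t; simp)

theorem tri_neg {V : Type} [DecidableEq V] {H : Finset (Finset V)} {x y z : V} (h : ({x, y, z} : Finset V) ∉ H) :
    tri H x y z = 0 := by
  unfold tri
  rw [if_neg]
  intro h'
  apply h
  have k : ∀ s : Finset V, (∀ t, t ∈ s ↔ t = x ∨ t = y ∨ t = z) → s ∈ H → ({x, y, z} : Finset V) ∈ H :=
    fun s hs hm => by
      rw [set_eq x y z s hs] at hm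
      exact hm
  exact k _ (by intro t; simp) h'

end Pool.Agent.Q113.Hyb
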