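import Pool.Agent.Q113.Hyb.Thy
import Pool.Agent.Q113.Hyb.TriEq
import Pool.Agent.Q113.Cov.Cnt

/-! Two copies of the coloured vertices; counting of edges. -/

set_option autoImplicit false
set_option linter.unusedSectionVars false
set_option linter.unusedVariables false
set_option maxRecDepth 100000
open Finset
open Pool.Agent.H122R2.N6
open Pool.Agent.Y435.T7 (e3 hC hx)
open Pool.Agent.Q113.Cov

namespace Pool.Agent.Q113.Hyb

noncomputable section

section
variable {V : Type} [Fintype V] [DecidableEq V] {E : V → V → V → ℕ}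

/-- the projection of the vertices and the second copies of the vertices of `U` -/
def pr (U : Finset V) : V ⊕ {v // v ∈ U} → V := Sum.elim id Subtype.val
/-- the colour: the second copies are coloured -/
def ch (U : Finset V) : V ⊕ {v // v ∈ U} → ℕ := Sum.elim (fun _ => 0) (fun _ => 1)
/-- the weight: a fraction `r` is on the second copy -/
def w2 (U : Finset V) (w : V → ℝ) (r : ℝ) : V ⊕ {v // v ∈ U} → ℝ :=
  Sum.elim (fun v => if v ∈ U then w v * (1 - r) else w v) (fun u => r * w u.1)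
/-- the 3-graph -/
def E2 (E : V → V → V → ℕ) (U : Finset V) (x y z : V ⊕ {v // v ∈ U}) : ℕ := E (pr U x) (pr U y) (pr U z)
/-- the coloured weight -/
def wc (U : Finset V) (w : V → ℝ) (r : ℝ) (v : V) : ℝ := if v ∈ U then r * w v else 0

theorem ch_lt (U : Finset V) (z : V ⊕ {v // v ∈ U}) : ch U z < 2 := by
  rcases z with v | v
  · exact Nat.zero_lt_two
  · exact Nat.one_lt_two

theorem ch_mem (U : Finset V) {z : V ⊕ {v // v ∈ U}} (h : ch U z = 1) : pr U z ∈ U := by
  rcases z with v | v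
  · exact absurd h (by unfold ch; simp)
  · exact v.2

theorem sum_w2 (U : Finset V) (w : V → ℝ) (r : ℝ) (f : V → ℝ) :
    ∑ z, w2 U w r z * f (pr U z) = ∑ v, w v * f v := by
  rw [Fintype.sum_sum_type]
  have h1 : ∑ u : {v // v ∈ U}, w2 U w r (Sum.inr u) * f (pr U (Sum.inr u)) = ∑ v ∈ U, r * w v * f v :=
    sum_coe_sort U (fun v => r * w v * f v)
  have h2 : ∑ v ∈ U, r * w v * f v = ∑ v, if v ∈ U then r * w v * f v else 0 := by
    rw [← sum_filter]
    congr 1
    ext v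
    simp
  rw [h1, h2, ← sum_add_distrib]
  refine sum_congr rfl fun v _ => ?_
  show (if v ∈ U then w v * (1 - r) else w v) * f v + _ = _
  by_cases hv : v ∈ U
  · rw [if_pos hv, if_pos hv]
    ring
  · rw [if_neg hv, if_neg hv]
    ring

theorem sum_ch (U : Finset V) (w : V → ℝ) (r : ℝ) (f : V → ℝ) :
    ∑ z, w2 U w r z * ((ch U z : ℝ) * f (pr U z)) = ∑ v, wc U w r v * f v := by
  rw [Fintype.sum_sum_type]
  have h0 : ∑ v : V, w2 U w r (Sum.inl v) * ((ch U (Sum.inl v : V ⊕ {v // v ∈ U}) : ℝ) * f (pr U (Sum.inl v))) = 0 := by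
    refine sum_eq_zero fun v _ => ?_
    show _ * (((0 : ℕ) : ℝ) * _) = 0
    simp
  have h1 : ∑ u : {v // v ∈ U}, w2 U w r (Sum.inr u) * ((ch U (Sum.inr u : V ⊕ {v // v ∈ U}) : ℝ) * f (pr U (Sum.inr u)))
      = ∑ v ∈ U, r * w v * f v := by
    rw [← sum_coe_sort U (fun v => r * w v * f v)]
    refine sum_congr rfl fun u _ => ?_
    show r * w u.1 * (((1 : ℕ) : ℝ) * f u.1) = _
    simp
  rw [h0, h1, zero_add]
  have h2 : ∑ v ∈ U, r * w v * f v = ∑ v, if v ∈ U then r * w v * f v else 0 := by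
    rw [← sum_filter]
    congr 1
    ext v
    simp
  rw [h2]
  refine sum_congr rfl fun v _ => ?_
  unfold wc
  by_cases hv : v ∈ U
  · rw [if_pos hv, if_pos hv]
  · rw [if_neg hv, if_neg hv, zero_mul]

theorem E2_sy (hE : Sy E) (U : Finset V) : Sy (E2 E U) :=
  ⟨fun _ _ _ => hE.b _ _ _, fun _ _ _ => hE.h213 _ _ _, fun _ _ _ => hE.h132 _ _ _⟩

theorem E2_no (hK : NoK4 E) (U : Finset V) : NoK4 (E2 E U) := fun _ _ _ _ => hK _ _ _ _

theorem T3_E2 (U : Finset V) (w : V → ℝ) (r : ℝ) :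
    T3 (E2 E U) (w2 U w r) (w2 U w r) (w2 U w r) = T3 E w w w := by
  unfold T3
  have e1 : ∀ a b, ∑ c, w2 U w r a * w2 U w r b * w2 U w r c * (E2 E U a b c : ℝ)
      = w2 U w r b * (w2 U w r a * ∑ v, w v * (E (pr U a) (pr U b) v : ℝ)) := by
    intro a b
    rw [← sum_w2 U w r (fun v => (E (pr U a) (pr U b) v : ℝ)), mul_sum, mul_sum]
    refine sum_congr rfl fun c _ => ?_
    unfold E2
    ring
  simp only [e1]
  have e2 : ∀ a, ∑ b, w2 U w r b * (w2 U w r a * ∑ v, w v * (E (pr U a) (pr U b) v : ℝ))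
      = w2 U w r a * ∑ u, w u * ∑ v, w v * (E (pr U a) u v : ℝ) := by
    intro a
    rw [← sum_w2 U w r (fun u => ∑ v, w v * (E (pr U a) u v : ℝ)), mul_sum]
    refine sum_congr rfl fun b _ => ?_
    ring
  simp only [e2]
  rw [sum_w2 U w r (fun t => ∑ u, w u * ∑ v, w v * (E t u v : ℝ))]
  refine sum_congr rfl fun a _ => ?_
  rw [mul_sum]
  refine sum_congr rfl fun b _ => ?_
  rw [mul_sum, mul_sum]
  refine sum_congr rfl fun c _ => ?_
  ring

theorem eU_E2 (U : Finset V) (w : V → ℝ) (r : ℝ) :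
    eU (E2 E U) (ch U) (w2 U w r) = T3 E (wc U w r) (wc U w r) (wc U w r) := by
  unfold T3 eU
  have e1 : ∀ a b, ∑ c, w2 U w r a * w2 U w r b * w2 U w r c * ((ch U a : ℝ) * ch U b * ch U c * (E2 E U a b c : ℝ))
      = w2 U w r b * ((ch U b : ℝ) * (w2 U w r a * ((ch U a : ℝ) * ∑ v, wc U w r v * (E (pr U a) (pr U b) v : ℝ)))) := by
    intro a b
    rw [← sum_ch U w r (fun v => (E (pr U a) (pr U b) v : ℝ)), mul_sum, mul_sum, mul_sum, mul_sum]
    refine sum_congr rfl fun c _ => ?_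
    unfold E2
    ring
  simp only [e1]
  have e2 : ∀ a, ∑ b, w2 U w r b * ((ch U b : ℝ) * (w2 U w r a * ((ch U a : ℝ) * ∑ v, wc U w r v * (E (pr U a) (pr U b) v : ℝ))))
      = w2 U w r a * ((ch U a : ℝ) * ∑ u, wc U w r u * ∑ v, wc U w r v * (E (pr U a) u v : ℝ)) := by
    intro a
    rw [← sum_ch U w r (fun u => ∑ v, wc U w r v * (E (pr U a) u v : ℝ)), mul_sum, mul_sum]
    refine sum_congr rfl fun b _ => ?_
    ring
  simp only [e2]
  rw [sum_ch U w r (fun t => ∑ u, wc U w r u * ∑ v, wc U w r v * (E t u v : ℝ))]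
  refine sum_congr rfl fun a _ => ?_
  rw [mul_sum]
  refine sum_congr rfl fun b _ => ?_
  rw [mul_sum, mul_sum]
  refine sum_congr rfl fun c _ => ?_
  ring

theorem w2_mem {w : V → ℝ} (hw : w ∈ stdSimplex ℝ V) (U : Finset V) {r : ℝ} (h0 : 0 ≤ r) (h1 : r ≤ 1) :
    w2 U w r ∈ stdSimplex ℝ (V ⊕ {v // v ∈ U}) := by
  refine ⟨fun z => ?_, ?_⟩
  · rcases z with v | v
    · show 0 ≤ if v ∈ U then w v * (1 - r) else w v
      by_cases hv : v ∈ U
      · rw [if_pos hv]
        exact mul_nonneg (hw.1 v) (by linarith)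
      · rw [if_neg hv]
        exact hw.1 v
    · exact mul_nonneg h0 (hw.1 v.1)
  · have := sum_w2 U w r (fun _ => 1)
    simp only [mul_one] at this
    rw [this]
    exact hw.2

theorem frac {w : V → ℝ} (hw : w ∈ stdSimplex ℝ V) (U : Finset V) {N D r : ℝ}
    (hr : D * r * ∑ v ∈ U, w v = N) : ∑ z, w2 U w r z * (D * (ch U z : ℝ) - N) = 0 := by
  have h1 := sum_w2 U w r (fun _ => 1)
  have h2 := sum_ch U w r (fun _ => 1)
  simp only [mul_one] at h1 h2
  have h3 : ∑ v, wc U w r v = r * ∑ v ∈ U, w v := by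
    unfold wc
    rw [mul_sum, ← sum_filter]
    congr 1
    ext v
    simp
  have : ∀ z, w2 U w r z * (D * (ch U z : ℝ) - N) = D * (w2 U w r z * (ch U z : ℝ)) - N * w2 U w r z := fun z => by ring
  rw [sum_congr rfl fun z _ => this z, sum_sub_distrib, ← mul_sum, ← mul_sum, h1, h2, h3, hw.2]
  linarith

/-- the combined inequality for a set `U` of vertices with at least the fraction `N / D` of the weight -/
theorem master (hE : Sy E) (hK : NoK4 E) {w : V → ℝ} (hw : w ∈ stdSimplex ℝ V) (U : Finset V)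
    {t1 t2 t3 t4 K S N D th la o1 o2 o3 o4 : ℕ} {q : ℕ → ℕ → ℤ} {qn : ℕ → ℤ} {G F : List (List (List ℤ))}
    {C : List ℤ} {sk : ℕ → ℕ → ℕ → ℕ → ℕ → ℕ → ℕ → ℕ → ℕ → ℕ → ℕ → ℕ → ℕ → ℕ → ℕ → Bool}
    (hqn : ∀ i < 16, ∑ k ∈ range 20, q i k ^ 2 = qn i)
    (h1 : all1 t1 S th la o1 q qn = true) (h2 : all2 t2 o2 G = true) (h3 : all3 t3 o3 F = true)
    (h4 : all4 t4 o4 N D C = true) (hF : allF t1 t2 t3 t4 K sk = true) (hN0 : 0 < N) (hD0 : 0 < D) (hS : 0 < S)
    (hU : (N : ℝ) / D ≤ ∑ u ∈ U, w u)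
    (hsk : ∀ a b c x y, sk (ch U a) (ch U b) (ch U c) (ch U x) (ch U y) (E2 E U a b c) (E2 E U a b x) (E2 E U a c x)
      (E2 E U b c x) (E2 E U a b y) (E2 E U a c y) (E2 E U b c y) (E2 E U a x y) (E2 E U b x y) (E2 E U c x y) = false) :
    ∃ r : ℝ, 0 ≤ r ∧ r ≤ 1 ∧ 335504400 * T3 E w w w + 444360 * T3 E w w w ^ 2
      + 105 * (((K : ℝ) - 10 * o1 - 10 * o2 - 15 * o3 - 5 * o4) / 120 - th * (5 - 9 * T3 E w w w)
        - la * T3 E (wc U w r) (wc U w r) (wc U w r)) / S ≤ 187199897 := by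
  have hN0' : (0 : ℝ) < N := by exact_mod_cast hN0
  have hD0' : (0 : ℝ) < D := by exact_mod_cast hD0
  have hS' : (0 : ℝ) < S := by exact_mod_cast hS
  have hpos : 0 < ∑ u ∈ U, w u := lt_of_lt_of_le (by positivity) hU
  set r : ℝ := N / (D * ∑ u ∈ U, w u) with hr
  have hr0 : 0 ≤ r := by positivity
  have hr1 : r ≤ 1 := by
    rw [hr, div_le_one (by positivity)]
    rwa [div_le_iff₀ hD0', mul_comm] at hU
  refine ⟨r, hr0, hr1, ?_⟩
  have hw2 := w2_mem hw U hr0 hr1
  have hf : D * r * ∑ v ∈ U, w v = N := by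
    rw [hr]
    field_simp
  have hy := hyb (E := E2 E U) (χ := ch U) (E2_sy hE U) (E2_no hK U) (ch_lt U) hw2 hqn h1 h2 h3 h4 hF
    (frac hw U hf) (fun _ _ _ _ _ => 0) (fun _ _ _ _ _ => le_rfl) (fun a b c x y => Or.inl (hsk a b c x y))
  rw [S5_const hw2.2, T3_E2, eU_E2] at hy
  have hm := main_real (E := E2 E U) (E2_sy hE U) (E2_no hK U) hw2
  rw [T3_E2] at hm
  set Z := ∑ a, ∑ b, ∑ c, w2 U w r a * w2 U w r b * w2 U w r c * Zb (E2 E U) (w2 U w r) a b c with hZ
  have : (((K : ℝ) - 10 * o1 - 10 * o2 - 15 * o3 - 5 * o4) / 120 - th * (5 - 9 * T3 E w w w)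
        - la * T3 E (wc U w r) (wc U w r) (wc U w r)) / S ≤ Z := by
    rw [div_le_iff₀ hS']
    linarith
  have h105 : 105 * (((K : ℝ) - 10 * o1 - 10 * o2 - 15 * o3 - 5 * o4) / 120 - th * (5 - 9 * T3 E w w w)
        - la * T3 E (wc U w r) (wc U w r) (wc U w r)) / S = 105 * ((((K : ℝ) - 10 * o1 - 10 * o2 - 15 * o3 - 5 * o4) / 120
        - th * (5 - 9 * T3 E w w w) - la * T3 E (wc U w r) (wc U w r) (wc U w r)) / S) := by ring
  rw [h105]
  linarith

theorem s3_false {e a b c : ℕ} (ha : a < 2) (hb : b < 2) (hc : c < 2) (he : e < 2)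
    (h : a = 1 → b = 1 → c = 1 → e = 0) : s3 e a b c = false := by
  unfold s3
  rw [← Bool.not_eq_true]
  intro h2
  rw [Nat.beq_eq] at h2
  have h3 : a + b + (c + e) = 4 := h2
  have := h (by omega) (by omega) (by omega)
  omega

theorem s2_false {e a b c : ℕ} (ha : a < 2) (hb : b < 2) (hc : c < 2) (he : e < 2)
    (h : a + b + c = 2 → e = 0) : s2 e a b c = false := by
  unfold s2
  rw [← Bool.not_eq_true, Bool.and_eq_true]
  rintro ⟨h2, h3⟩
  rw [Nat.beq_eq] at h2 h3
  have h4 : a + b + c = 2 := h3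
  have := h h4
  omega

theorem sAny_false {s : ℕ → ℕ → ℕ → ℕ → Bool} (U : Finset V)
    (h : ∀ a b c, s (E2 E U a b c) (ch U a) (ch U b) (ch U c) = false) (a b c x y : V ⊕ {v // v ∈ U}) :
    sAny s (ch U a) (ch U b) (ch U c) (ch U x) (ch U y) (E2 E U a b c) (E2 E U a b x) (E2 E U a c x)
      (E2 E U b c x) (E2 E U a b y) (E2 E U a c y) (E2 E U b c y) (E2 E U a x y) (E2 E U b x y) (E2 E U c x y) = false := by
  unfold sAny
  simp only [h, Bool.or_false]

theorem T3_wc_zero (U : Finset V) (hU : ∀ a ∈ U, ∀ b ∈ U, ∀ c ∈ U, E a b c = 0) (w : V → ℝ) (r : ℝ) :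
    T3 E (wc U w r) (wc U w r) (wc U w r) = 0 := by
  unfold T3
  refine sum_eq_zero fun a _ => sum_eq_zero fun b _ => sum_eq_zero fun c _ => ?_
  unfold wc
  by_cases ha : a ∈ U
  · by_cases hb : b ∈ U
    · by_cases hc : c ∈ U
      · rw [hU a ha b hb c hc]
        simp
      · rw [if_neg hc]
        ring
    · rw [if_neg hb]
      ring
  · rw [if_neg ha]
    ring

end

/-- the other direction of `six_weight_le` -/
theorem six_weight_ge {V : Type} [Fintype V] {H : Finset (Finset V)} (hH : ∀ e ∈ H, e.card = 3)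
    {w : V → ℝ} (hw : ∀ v, 0 ≤ w v) : T3 (tri H) w w w ≤ 6 * ∑ e ∈ H, ∏ v ∈ e, w v := by
  classical
  set T : Finset (V × V × V) := univ.filter fun t => ({t.1, t.2.1, t.2.2} : Finset V) ∈ H with hT
  have e : T3 (tri H) w w w = ∑ t ∈ T, w t.1 * w t.2.1 * w t.2.2 := by
    rw [hT, sum_filter, Fintype.sum_prod_type]
    unfold T3
    refine sum_congr rfl fun a _ => ?_
    rw [Fintype.sum_prod_type]
    refine sum_congr rfl fun b _ => sum_congr rfl fun c _ => ?_
    by_cases h : ({a, b, c} : Finset V) ∈ H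
    · rw [tri_pos h, if_pos h]; simp
    · rw [tri_neg h, if_neg h]; simp
  have hfw := sum_fiberwise_of_maps_to (s := T) (t := H)
    (g := fun t : V × V × V => ({t.1, t.2.1, t.2.2} : Finset V))
    (fun t ht => (mem_filter.mp ht).2) (fun t => w t.1 * w t.2.1 * w t.2.2)
  rw [e, ← hfw, mul_sum]
  refine sum_le_sum fun s hs => ?_
  obtain ⟨x, y, z, hxy, hxz, hyz, rfl⟩ := Finset.card_eq_three.mp (hH s hs)
  have hprod : ∏ v ∈ ({x, y, z} : Finset V), w v = w x * w y * w z := by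
    rw [prod_insert (by simp [hxy, hxz]), prod_insert (by simp [hyz]), prod_singleton]
    ring
  rw [hprod]
  set U : Finset (V × V × V) := {(x, y, z), (x, z, y), (y, x, z), (y, z, x), (z, x, y), (z, y, x)} with hU
  have hsub : T.filter (fun t : V × V × V => ({t.1, t.2.1, t.2.2} : Finset V) = {x, y, z}) ⊆ U := by
    rintro ⟨a, b, c⟩ ht
    have h1 : ({a, b, c} : Finset V) = {x, y, z} := (mem_filter.mp ht).2
    have hc3 : ({a, b, c} : Finset V).card = 3 := by
      rw [h1]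
      exact card_eq_three.mpr ⟨x, y, z, hxy, hxz, hyz, rfl⟩
    have hab : a ≠ b := by
      rintro rfl
      have : ({a, a, c} : Finset V).card ≤ 2 := by
        rw [insert_eq_of_mem (by simp)]
        exact card_le_two
      omega
    have hac : a ≠ c := by
      rintro rfl
      have : ({a, b, a} : Finset V).card ≤ 2 := by
        rw [insert_eq_of_mem (by simp)]
        exact card_le_two
      omega
    have hbc : b ≠ c := by
      rintro rfl
      have : ({a, b, b} : Finset V).card ≤ 2 := by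
        rw [pair_eq_singleton]
        exact card_le_two
      omega
    have ha : a = x ∨ a = y ∨ a = z := by
      have : a ∈ ({x, y, z} : Finset V) := by rw [← h1]; simp
      simpa using this
    have hb : b = x ∨ b = y ∨ b = z := by
      have : b ∈ ({x, y, z} : Finset V) := by rw [← h1]; simp
      simpa using this
    have hc : c = x ∨ c = y ∨ c = z := by
      have : c ∈ ({x, y, z} : Finset V) := by rw [← h1]; simp
      simpa using this
    rw [hU]
    simp only [mem_insert, mem_singleton, Prod.mk.injEq]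
    rcases ha with rfl | rfl | rfl <;> rcases hb with rfl | rfl | rfl <;> rcases hc with rfl | rfl | rfl <;> simp_all
  refine (sum_le_sum_of_subset_of_nonneg hsub fun t _ _ => mul_nonneg (mul_nonneg (hw _) (hw _)) (hw _)).trans ?_
  have hle : ∑ t ∈ U, w t.1 * w t.2.1 * w t.2.2 ≤ ∑ _t ∈ U, w x * w y * w z := by
    refine sum_le_sum fun t ht => ?_
    rw [hU] at ht
    simp only [mem_insert, mem_singleton] at ht
    rcases ht with rfl | rfl | rfl | rfl | rfl | rfl <;> exact le_of_eq (by ring)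
  refine hle.trans ?_
  rw [sum_const, nsmul_eq_mul]
  refine mul_le_mul_of_nonneg_right ?_ (mul_nonneg (mul_nonneg (hw _) (hw _)) (hw _))
  have hcU : U.card ≤ 6 := by
    rw [hU]
    exact card_le_six
  exact_mod_cast hcU

end

end Pool.Agent.Q113.Hyb
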