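import Pool.Agent.Q113.Cov.UTab

/-! Tables for the combination of the certificate of order seven with coloured structures of order
five: definitions. -/

set_option autoImplicit false
set_option linter.unusedVariables false
open Finset
open Pool.Agent.Y435.T7 (e3 hC hx)
open Pool.Agent.Q113.Cov (A2 A2_true qv)

namespace Pool.Agent.Q113.Hyb

noncomputable section

/-- entry `i` of a table of numbers with 48 bits -/
def tb (T i : ℕ) : ℕ := Nat.mod (Nat.shiftRight T (Nat.mul 48 i)) 281474976710656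
/-- index of a coloured triple and a structure of order five -/
def i1 (c0 c1 c2 h : ℕ) : ℕ := Nat.add (Nat.mul 1024 (Nat.add c0 (Nat.mul 2 (Nat.add c1 (Nat.mul 2 c2))))) h
/-- index of a coloured triple and two further vertices -/
def i2 (c0 c1 c2 e cs a1 a2 a3 ct b1 b2 b3 : ℕ) : ℕ :=
  Nat.add c0 (Nat.mul 2 (Nat.add c1 (Nat.mul 2 (Nat.add c2 (Nat.mul 2 (Nat.add e (Nat.mul 2 (Nat.add cs (Nat.mul 2 (Nat.add a1 (Nat.mul 2 (Nat.add a2 (Nat.mul 2 (Nat.add a3 (Nat.mul 2 (Nat.add ct (Nat.mul 2 (Nat.add b1 (Nat.mul 2 (Nat.add b2 (Nat.mul 2 b3)))))))))))))))))))))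
/-- index of a vertex and two pairs -/
def i3 (c0 c1 c2 e c3 c4 f : ℕ) : ℕ :=
  Nat.add c0 (Nat.mul 2 (Nat.add c1 (Nat.mul 2 (Nat.add c2 (Nat.mul 2 (Nat.add e (Nat.mul 2 (Nat.add c3 (Nat.mul 2 (Nat.add c4 (Nat.mul 2 f)))))))))))
/-- index of four vertices and one further vertex -/
def i4 (c0 c1 c2 c3 a b c d c4 : ℕ) : ℕ :=
  Nat.add c0 (Nat.mul 2 (Nat.add c1 (Nat.mul 2 (Nat.add c2 (Nat.mul 2 (Nat.add c3 (Nat.mul 2 (Nat.add a (Nat.mul 2 (Nat.add b (Nat.mul 2 (Nat.add c (Nat.mul 2 (Nat.add d (Nat.mul 2 c4)))))))))))))))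
/-- four triples -/
def k4 (a b c d : ℕ) : Bool := Nat.beq (Nat.add (Nat.add a b) (Nat.add c d)) 4

/-- the sum of all table entries of a coloured structure of order five -/
def tot (t1 t2 t3 t4 c0 c1 c2 c3 c4 e012 e013 e023 e123 e014 e024 e124 e034 e134 e234 : ℕ) : ℕ :=
  Nat.add (tb t1 (i1 c2 c3 c4 (hx e234 e023 e024 e034 e123 e124 e134 e012 e013 e014))) (Nat.add (tb t1 (i1 c1 c3 c4 (hx e134 e013 e014 e034 e123 e124 e234 e012 e023 e024))) (Nat.add (tb t1 (i1 c1 c2 c4 (hx e124 e012 e014 e024 e123 e134 e234 e013 e023 e034))) (Nat.add (tb t1 (i1 c1 c2 c3 (hx e123 e012 e013 e023 e124 e134 e234 e014 e024 e034))) (Nat.add (tb t1 (i1 c0 c3 c4 (hx e034 e013 e014 e134 e023 e024 e234 e012 e123 e124))) (Nat.add (tb t1 (i1 c0 c2 c4 (hx e024 e012 e014 e124 e023 e034 e234 e013 e123 e134))) (Nat.add (tb t1 (i1 c0 c2 c3 (hx e023 e012 e013 e123 e024 e034 e234 e014 e124 e134)))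 (Nat.add (tb t1 (i1 c0 c1 c4 (hx e014 e012 e024 e124 e013 e034 e134 e023 e123 e234))) (Nat.add (tb t1 (i1 c0 c1 c3 (hx e013 e012 e023 e123 e014 e034 e134 e024 e124 e234))) (Nat.add (tb t1 (i1 c0 c1 c2 (hx e012 e013 e023 e123 e014 e024 e124 e034 e134 e234))) (Nat.add (tb t2 (i2 c2 c3 c4 e234 c0 e023 e024 e034 c1 e123 e124 e134)) (Nat.add (tb t2 (i2 c1 c3 c4 e134 c0 e013 e014 e034 c2 e123 e124 e234)) (Nat.add (tb t2 (i2 c1 c2 c4 e124 c0 e012 e014 e024 c3 e123 e134 e234)) (Nat.add (tb t2 (i2 c1 c2 c3 e123 c0 e012 e013 e023 c4 e124 e134 e234)) (Nat.add (tb t2 (i2 c0 c3 c4 e034 c1 e013 e014 e134 c2 e023 e024 e234)) (Nat.add (tb t2 (i2 c0 c2 c4 e024 c1 e012 e014 e124 c3 e023 e034 e234)) (Nat.add (tb t2 (i2 c0 c2 c3 e023 c1 e012 e013 e123 c4 e024 e034 e234)) (Nat.add (tb t2 (i2 c0 c1 c4 e014 c2 e012 e024 e124 c3 e013 e034 e134)) (Nat.add (tb t2 (i2 c0 c1 c3 e013 c2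 e012 e023 e123 c4 e014 e034 e134)) (Nat.add (tb t2 (i2 c0 c1 c2 e012 c3 e013 e023 e123 c4 e014 e024 e124)) (Nat.add (tb t3 (i3 c0 c1 c2 e012 c3 c4 e034)) (Nat.add (tb t3 (i3 c0 c1 c3 e013 c2 c4 e024)) (Nat.add (tb t3 (i3 c0 c1 c4 e014 c2 c3 e023)) (Nat.add (tb t3 (i3 c1 c0 c2 e012 c3 c4 e134)) (Nat.add (tb t3 (i3 c1 c0 c3 e013 c2 c4 e124)) (Nat.add (tb t3 (i3 c1 c0 c4 e014 c2 c3 e123)) (Nat.add (tb t3 (i3 c2 c0 c1 e012 c3 c4 e234)) (Nat.add (tb t3 (i3 c2 c0 c3 e023 c1 c4 e124)) (Nat.add (tb t3 (i3 c2 c0 c4 e024 c1 c3 e123)) (Nat.add (tb t3 (i3 c3 c0 c1 e013 c2 c4 e234)) (Nat.add (tb t3 (i3 c3 c0 c2 e023 c1 c4 e134)) (Nat.add (tb t3 (i3 c3 c0 c4 e034 c1 c2 e123)) (Nat.add (tb t3 (i3 c4 c0 c1 e014 c2 c3 e234)) (Nat.add (tb t3 (i3 c4 c0 c2 e024 c1 c3 e134)) (Nat.add (tb t3 (i3 c4 c0 c3 e034 c1 c2 e124)) (Nat.add (tb t4 (i4 c1 c2 c3 c4 e123 e124 e134 e234 c0))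 (Nat.add (tb t4 (i4 c0 c2 c3 c4 e023 e024 e034 e234 c1)) (Nat.add (tb t4 (i4 c0 c1 c3 c4 e013 e014 e034 e134 c2)) (Nat.add (tb t4 (i4 c0 c1 c2 c4 e012 e014 e024 e124 c3)) (tb t4 (i4 c0 c1 c2 c3 e012 e013 e023 e123 c4))))))))))))))))))))))))))))))))))))))))

/-- four vertices with all triples -/
def hk (e012 e013 e023 e123 e014 e024 e124 e034 e134 e234 : ℕ) : Bool :=
  k4 e012 e013 e023 e123 || k4 e012 e014 e024 e124 || k4 e013 e014 e034 e134 || k4 e023 e024 e034 e234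
    || k4 e123 e124 e134 e234

/-- all coloured structures of order five without the exceptional ones -/
def allF (t1 t2 t3 t4 K : ℕ) (sk : ℕ → ℕ → ℕ → ℕ → ℕ → ℕ → ℕ → ℕ → ℕ → ℕ → ℕ → ℕ → ℕ → ℕ → ℕ → Bool) : Bool :=
  A2 fun c0 =>  A2 fun c1 =>  A2 fun c2 =>  A2 fun c3 =>  A2 fun c4 =>
  A2 fun e012 =>  A2 fun e013 =>  A2 fun e023 =>  A2 fun e123 =>  A2 fun e014 =>  A2 fun e024 =>
  A2 fun e124 =>  A2 fun e034 =>  A2 fun e134 =>  A2 fun e234 =>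
  hk e012 e013 e023 e123 e014 e024 e124 e034 e134 e234 || (sk c0 c1 c2 c3 c4 e012 e013 e023 e123 e014 e024 e124 e034 e134 e234 || Nat.ble K (tot t1 t2 t3 t4 c0 c1 c2 c3 c4 e012 e013 e023 e123 e014 e024 e124 e034 e134 e234))

theorem allF_true {t1 t2 t3 t4 K : ℕ} {sk : ℕ → ℕ → ℕ → ℕ → ℕ → ℕ → ℕ → ℕ → ℕ → ℕ → ℕ → ℕ → ℕ → ℕ → ℕ → Bool}
    (h : allF t1 t2 t3 t4 K sk = true) {c0 c1 c2 c3 c4 e012 e013 e023 e123 e014 e024 e124 e034 e134 e234 : ℕ}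
    (hc0 : c0 < 2) (hc1 : c1 < 2) (hc2 : c2 < 2) (hc3 : c3 < 2) (hc4 : c4 < 2) (he012 : e012 < 2) (he013 : e013 < 2) (he023 : e023 < 2) (he123 : e123 < 2) (he014 : e014 < 2) (he024 : e024 < 2) (he124 : e124 < 2) (he034 : e034 < 2) (he134 : e134 < 2) (he234 : e234 < 2)
    (hk0 : hk e012 e013 e023 e123 e014 e024 e124 e034 e134 e234 = false) (hs : sk c0 c1 c2 c3 c4 e012 e013 e023 e123 e014 e024 e124 e034 e134 e234 = false) :
    K ≤ tot t1 t2 t3 t4 c0 c1 c2 c3 c4 e012 e013 e023 e123 e014 e024 e124 e034 e134 e234 := by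
  unfold allF at h
  have h2 := A2_true (A2_true (A2_true (A2_true (A2_true (A2_true (A2_true (A2_true (A2_true (A2_true (A2_true (A2_true (A2_true (A2_true (A2_true h hc0) hc1) hc2) hc3) hc4) he012) he013) he023) he123) he014) he024) he124) he034) he134) he234
  rw [hk0, hs, Bool.false_or, Bool.false_or] at h2
  exact Nat.le_of_ble_eq_true h2

/-- tables one: the linear functionals -/
def all1 (t1 S th la o1 : ℕ) (q : ℕ → ℕ → ℤ) (qn : ℕ → ℤ) : Bool :=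
  A2 fun c0 =>  A2 fun c1 =>  A2 fun c2 =>
  A2 fun e012 =>  A2 fun e013 =>  A2 fun e023 =>  A2 fun e123 =>  A2 fun e014 =>  A2 fun e024 =>
  A2 fun e124 =>  A2 fun e034 =>  A2 fun e134 =>  A2 fun e234 =>
  hk e012 e013 e023 e123 e014 e024 e124 e034 e134 e234 || decide ((tb t1 (i1 c0 c1 c2 (hx e012 e013 e023 e123 e014 e024 e124 e034 e134 e234)) : ℤ) ≤ o1 + 12 * (S * (2 * qv (q (c0 + 2 * c1 + 4 * c2 + 8 * e012)) (hx e012 e013 e023 e123 e014 e024 e124 e034 e134 e234)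
    - qn (c0 + 2 * c1 + 4 * c2 + 8 * e012)) + th * (5 - 9 * (e012 : ℤ)) + la * ((c0 : ℤ) * c1 * c2 * e012)))

theorem all1_true {t1 S th la o1 : ℕ} {q : ℕ → ℕ → ℤ} {qn : ℕ → ℤ}
    (h : all1 t1 S th la o1 q qn = true) {c0 c1 c2 e012 e013 e023 e123 e014 e024 e124 e034 e134 e234 : ℕ}
    (hc0 : c0 < 2) (hc1 : c1 < 2) (hc2 : c2 < 2) (he012 : e012 < 2) (he013 : e013 < 2) (he023 : e023 < 2) (he123 : e123 < 2) (he014 : e014 < 2) (he024 : e024 < 2) (he124 : e124 < 2) (he034 : e034 < 2) (he134 : e134 < 2) (he234 : e234 < 2)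
    (hk0 : hk e012 e013 e023 e123 e014 e024 e124 e034 e134 e234 = false) :
    (tb t1 (i1 c0 c1 c2 (hx e012 e013 e023 e123 e014 e024 e124 e034 e134 e234)) : ℤ) ≤ o1 + 12 * (S * (2 * qv (q (c0 + 2 * c1 + 4 * c2 + 8 * e012)) (hx e012 e013 e023 e123 e014 e024 e124 e034 e134 e234)
    - qn (c0 + 2 * c1 + 4 * c2 + 8 * e012)) + th * (5 - 9 * (e012 : ℤ)) + la * ((c0 : ℤ) * c1 * c2 * e012)) := by
  unfold all1 at h
  have h2 := A2_true (A2_true (A2_true (A2_true (A2_true (A2_true (A2_true (A2_true (A2_true (A2_true (A2_true (A2_true (A2_true h hc0) hc1) hc2) he012) he013) he023) he123) he014) he024) he124) he034) he134) he234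
  rw [hk0, Bool.false_or] at h2
  exact of_decide_eq_true h2

/-- entry of a nested list -/
def nl (G : List (List (List ℤ))) (i k s : ℕ) : ℤ := ((G.getD i []).getD k []).getD s 0

/-- tables two: the squares at triples -/
def all2 (t2 o2 : ℕ) (G : List (List (List ℤ))) : Bool :=
  A2 fun c0 => A2 fun c1 => A2 fun c2 => A2 fun e => A2 fun cs => A2 fun a1 => A2 fun a2 => A2 fun a3 => A2 fun ct =>
  A2 fun b1 => A2 fun b2 => A2 fun b3 =>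
  k4 e a1 a2 a3 || (k4 e b1 b2 b3 || decide ((tb t2 (i2 c0 c1 c2 e cs a1 a2 a3 ct b1 b2 b3) : ℤ) ≤ o2 - 12 * ∑ k ∈ range 16,
    nl G (c0 + 2 * c1 + 4 * c2 + 8 * e) k (cs + 2 * a1 + 4 * a2 + 8 * a3)
      * nl G (c0 + 2 * c1 + 4 * c2 + 8 * e) k (ct + 2 * b1 + 4 * b2 + 8 * b3)))

theorem all2_true {t2 o2 : ℕ} {G : List (List (List ℤ))} (h : all2 t2 o2 G = true)
    {c0 c1 c2 e cs a1 a2 a3 ct b1 b2 b3 : ℕ} (hc0 : c0 < 2) (hc1 : c1 < 2) (hc2 : c2 < 2) (he : e < 2)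
    (hcs : cs < 2) (ha1 : a1 < 2) (ha2 : a2 < 2) (ha3 : a3 < 2) (hct : ct < 2) (hb1 : b1 < 2) (hb2 : b2 < 2)
    (hb3 : b3 < 2) (n1 : k4 e a1 a2 a3 = false) (n2 : k4 e b1 b2 b3 = false) :
    (tb t2 (i2 c0 c1 c2 e cs a1 a2 a3 ct b1 b2 b3) : ℤ) ≤ o2 - 12 * ∑ k ∈ range 16,
    nl G (c0 + 2 * c1 + 4 * c2 + 8 * e) k (cs + 2 * a1 + 4 * a2 + 8 * a3)
      * nl G (c0 + 2 * c1 + 4 * c2 + 8 * e) k (ct + 2 * b1 + 4 * b2 + 8 * b3) := by
  unfold all2 at h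
  have h2 := A2_true (A2_true (A2_true (A2_true (A2_true (A2_true (A2_true (A2_true (A2_true (A2_true (A2_true
    (A2_true h hc0) hc1) hc2) he) hcs) ha1) ha2) ha3) hct) hb1) hb2) hb3
  rw [n1, n2, Bool.false_or, Bool.false_or] at h2
  exact of_decide_eq_true h2

/-- tables three: the squares at vertices -/
def all3 (t3 o3 : ℕ) (G : List (List (List ℤ))) : Bool :=
  A2 fun c0 => A2 fun c1 => A2 fun c2 => A2 fun e => A2 fun c3 => A2 fun c4 => A2 fun f =>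
  decide ((tb t3 (i3 c0 c1 c2 e c3 c4 f) : ℤ) ≤ o3 - 8 * ∑ k ∈ range 16,
    nl G c0 k (c1 + 2 * c2 + 4 * e) * nl G c0 k (c3 + 2 * c4 + 4 * f))

theorem all3_true {t3 o3 : ℕ} {G : List (List (List ℤ))} (h : all3 t3 o3 G = true)
    {c0 c1 c2 e c3 c4 f : ℕ} (hc0 : c0 < 2) (hc1 : c1 < 2) (hc2 : c2 < 2) (he : e < 2)
    (hc3 : c3 < 2) (hc4 : c4 < 2) (hf : f < 2) :
    (tb t3 (i3 c0 c1 c2 e c3 c4 f) : ℤ) ≤ o3 - 8 * ∑ k ∈ range 16,
    nl G c0 k (c1 + 2 * c2 + 4 * e) * nl G c0 k (c3 + 2 * c4 + 4 * f) := by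
  unfold all3 at h
  have h2 := A2_true (A2_true (A2_true (A2_true (A2_true (A2_true (A2_true h hc0) hc1) hc2) he) hc3) hc4) hf
  exact of_decide_eq_true h2

/-- tables four: the multipliers of the fraction of the coloured vertices -/
def all4 (t4 o4 N D : ℕ) (C : List ℤ) : Bool :=
  A2 fun c0 => A2 fun c1 => A2 fun c2 => A2 fun c3 => A2 fun a => A2 fun b => A2 fun c => A2 fun d => A2 fun c4 =>
  k4 a b c d || decide ((tb t4 (i4 c0 c1 c2 c3 a b c d c4) : ℤ) ≤ o4 + 24 * (C.getD (i4 c0 c1 c2 c3 a b c d 0) 0 * (D * c4 - N)))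

theorem all4_true {t4 o4 N D : ℕ} {C : List ℤ} (h : all4 t4 o4 N D C = true)
    {c0 c1 c2 c3 a b c d c4 : ℕ} (hc0 : c0 < 2) (hc1 : c1 < 2) (hc2 : c2 < 2) (hc3 : c3 < 2)
    (ha : a < 2) (hb : b < 2) (hc : c < 2) (hd : d < 2) (hc4 : c4 < 2) (n : k4 a b c d = false) :
    (tb t4 (i4 c0 c1 c2 c3 a b c d c4) : ℤ) ≤ o4 + 24 * (C.getD (i4 c0 c1 c2 c3 a b c d 0) 0 * (D * c4 - N)) := by
  unfold all4 at h
  have h2 := A2_true (A2_true (A2_true (A2_true (A2_true (A2_true (A2_true (A2_true (A2_true h hc0) hc1) hc2) hc3) ha) hb) hc) hd) hc4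
  rw [n, Bool.false_or] at h2
  exact of_decide_eq_true h2

end

end Pool.Agent.Q113.Hyb
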