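import Pool.Agent.Q113.Hyb.App
import Pool.Agent.Q113.Hyb.CA
import Pool.Agent.Q113.Hyb.CB

/-! Independent sets and sparse halves. -/

set_option autoImplicit false
set_option maxRecDepth 100000
open Finset
open scoped Classical
open Pool.Agent.H122R2.N6
open Pool.Agent.Q113.Cov

namespace Pool.Agent.Q113.Hyb

noncomputable section

section
variable {V : Type} [Fintype V] [DecidableEq V] {E : V → V → V → ℕ}

theorem T3_wc_le (U : Finset V) {w : V → ℝ} (hw : ∀ v, 0 ≤ w v) {r : ℝ} (h0 : 0 ≤ r) (h1 : r ≤ 1) :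
    T3 E (wc U w r) (wc U w r) (wc U w r) ≤
      T3 E (fun v => if v ∈ U then w v else 0) (fun v => if v ∈ U then w v else 0)
        (fun v => if v ∈ U then w v else 0) := by
  have hle : ∀ v, wc U w r v ≤ if v ∈ U then w v else 0 := by
    intro v
    unfold wc
    by_cases h : v ∈ U
    · rw [if_pos h, if_pos h]
      nlinarith [hw v]
    · rw [if_neg h, if_neg h]
  have hnn : ∀ v, 0 ≤ wc U w r v := by
    intro v
    unfold wc
    by_cases h : v ∈ U
    · rw [if_pos h]
      exact mul_nonneg h0 (hw v)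
    · rw [if_neg h]
  unfold T3
  refine sum_le_sum fun a _ => sum_le_sum fun b _ => sum_le_sum fun c _ => ?_
  refine mul_le_mul_of_nonneg_right ?_ (Nat.cast_nonneg _)
  exact mul_le_mul (mul_le_mul (hle a) (hle b) (hnn b) ((hnn a).trans (hle a))) (hle c) (hnn c)
    (mul_nonneg ((hnn a).trans (hle a)) ((hnn b).trans (hle b)))

/-- an independent set of seven fifteenths -/
theorem indep_le (hE : Sy E) (hK : NoK4 E) {w : V → ℝ} (hw : w ∈ stdSimplex ℝ V) (U : Finset V)
    (hU : 7 / 15 ≤ ∑ u ∈ U, w u) (hI : ∀ a ∈ U, ∀ b ∈ U, ∀ c ∈ U, E a b c = 0) :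
    T3 E w w w ≤ 5 / 9 - 1 / 10000 := by
  obtain ⟨r, hr0, hr1, h⟩ := master hE hK hw U (S := 1000) (N := 7) (D := 15) CA.hqn CA.h1 CA.h2 CA.h3 CA.h4 CA.hF
    (by norm_num) (by norm_num) (by norm_num) (by push_cast; exact hU) (fun a b c x y => by
      refine sAny_false U (fun a b c => ?_) a b c x y
      exact s3_false (ch_lt U a) (ch_lt U b) (ch_lt U c) (by
        rcases (E2_sy hE U).b a b c with h | h <;> omega) (fun h1 h2 h3 =>
        hI _ (ch_mem U h1) _ (ch_mem U h2) _ (ch_mem U h3)))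
  rw [T3_wc_zero U hI] at h
  push_cast at h
  have hT : 0 ≤ (T3 E w w w - 5 / 9) ^ 2 := sq_nonneg _
  nlinarith

/-- any half of the vertices -/
theorem half_le (hE : Sy E) (hK : NoK4 E) {w : V → ℝ} (hw : w ∈ stdSimplex ℝ V) (U : Finset V)
    (hU : 1 / 2 ≤ ∑ u ∈ U, w u) :
    T3 E w w w ≤ 5 / 9 + 6 / 25 * (T3 E (fun v => if v ∈ U then w v else 0) (fun v => if v ∈ U then w v else 0)
        (fun v => if v ∈ U then w v else 0) - 1 / 120) := by
  obtain ⟨r, hr0, hr1, h⟩ := master hE hK hw U (S := 1000) (N := 1) (D := 2) CB.hqn CB.h1 CB.h2 CB.h3 CB.h4 CB.hF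
    (by norm_num) (by norm_num) (by norm_num) (by push_cast; exact hU) (fun a b c x y => rfl)
  have hle := T3_wc_le (E := E) U (fun v => hw.1 v) hr0 hr1
  have hnn : 0 ≤ T3 E (fun v => if v ∈ U then w v else 0) (fun v => if v ∈ U then w v else 0)
        (fun v => if v ∈ U then w v else 0) := by
    unfold T3
    refine sum_nonneg fun a _ => sum_nonneg fun b _ => sum_nonneg fun c _ => mul_nonneg (mul_nonneg (mul_nonneg ?_ ?_) ?_) (Nat.cast_nonneg _)
    · show 0 ≤ if a ∈ U then w a else 0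
      split_ifs
      exacts [hw.1 a, le_rfl]
    · show 0 ≤ if b ∈ U then w b else 0
      split_ifs
      exacts [hw.1 b, le_rfl]
    · show 0 ≤ if c ∈ U then w c else 0
      split_ifs
      exacts [hw.1 c, le_rfl]
  set t := T3 E (fun v => if v ∈ U then w v else 0) (fun v => if v ∈ U then w v else 0)
        (fun v => if v ∈ U then w v else 0)
  push_cast at h
  have hT : 0 ≤ (T3 E w w w - 5 / 9) ^ 2 := sq_nonneg _
  nlinarith

end

end

end Pool.Agent.Q113.Hyb
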