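import Pool.Agent.Q113.Hyb.Defs

/-! Exceptional coloured structures of order five: the link of a coloured vertex is a given graph. -/

set_option autoImplicit false
set_option linter.unusedVariables false

namespace Pool.Agent.Q113.Hyb

/-- the code of a graph with four vertices -/
def pat (e01 e02 e12 e03 e13 e23 : ℕ) : ℕ :=
  Nat.add (Nat.add (Nat.add e01 (Nat.mul 2 e02)) (Nat.add (Nat.mul 4 e12) (Nat.mul 8 e03)))
    (Nat.add (Nat.mul 16 e13) (Nat.mul 32 e23))

/-- the bit `c` of the number `M` -/
def inM (M c : ℕ) : Bool := Nat.beq (Nat.land (Nat.shiftRight M c) 1) 1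

/-- the link of some coloured vertex is in the list `M` -/
def sLink (M : ℕ) (c0 c1 c2 c3 c4 e012 e013 e023 e123 e014 e024 e124 e034 e134 e234 : ℕ) : Bool :=
  (Nat.beq c0 1 && inM M (pat e012 e013 e023 e014 e024 e034))
    || (Nat.beq c1 1 && inM M (pat e012 e013 e123 e014 e124 e134))
    || (Nat.beq c2 1 && inM M (pat e012 e023 e123 e024 e124 e234))
    || (Nat.beq c3 1 && inM M (pat e013 e023 e123 e034 e134 e234))
    || (Nat.beq c4 1 && inM M (pat e014 e024 e124 e034 e134 e234))

end Pool.Agent.Q113.Hyb
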