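import Pool.Agent.Q113.Hyb.App
import Pool.Agent.Q113.Hyb.SkipL

/-! Conditions on the links of the vertices of a set. -/

set_option autoImplicit false
set_option linter.unusedSectionVars false
set_option linter.unusedVariables false
set_option maxRecDepth 100000
open Finset
open Pool.Agent.H122R2.N6
open Pool.Agent.Y435.T7 (e3 hC hx)
open Pool.Agent.Q113.Cov

namespace Pool.Agent.Q113.Hyb

noncomputable section

section
variable {V : Type} [Fintype V] [DecidableEq V] {E : V → V → V → ℕ}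

/-- the code of the link of `v` on four vertices -/
def lpat (E : V → V → V → ℕ) (p q r s v : V) : ℕ := pat (E v p q) (E v p r) (E v q r) (E v p s) (E v q s) (E v r s)

/-- the indicator of: `v` is coloured and its link on the four other vertices is in the list -/
def Lk (E : V → V → V → ℕ) (χ : V → ℕ) (M : ℕ) (p q r s v : V) : ℝ :=
  if (Nat.beq (χ v) 1 && inM M (lpat E p q r s v)) = true then 1 else 0

theorem Lk_nonneg (χ : V → ℕ) (M : ℕ) (p q r s v : V) : 0 ≤ Lk E χ M p q r s v := by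
  unfold Lk
  split_ifs <;> norm_num

theorem sLink_bad (hE : Sy E) (χ : V → ℕ) (M : ℕ) (a b c x y : V) :
    sLink M (χ a) (χ b) (χ c) (χ x) (χ y) (E a b c) (E a b x) (E a c x) (E b c x) (E a b y) (E a c y) (E b c y)
      (E a x y) (E b x y) (E c x y) = false ∨ 1 ≤ g5 (Lk E χ M) a b c x y := by
  by_cases h : sLink M (χ a) (χ b) (χ c) (χ x) (χ y) (E a b c) (E a b x) (E a c x) (E b c x) (E a b y) (E a c y) (E b c y)
      (E a x y) (E b x y) (E c x y) = true
  · right
    have n := Lk_nonneg (E := E) χ M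
    have e1 : lpat E b c x y a = pat (E a b c) (E a b x) (E a c x) (E a b y) (E a c y) (E a x y) := rfl
    have e2 : lpat E a c x y b = pat (E a b c) (E a b x) (E b c x) (E a b y) (E b c y) (E b x y) := by
      unfold lpat
      rw [hE.h213 a b c, hE.h213 a b x, hE.h213 a b y]
    have e3 : lpat E a b x y c = pat (E a b c) (E a c x) (E b c x) (E a c y) (E b c y) (E c x y) := by
      unfold lpat
      rw [hE.h312 a b c, hE.h213 a c x, hE.h213 b c x, hE.h213 a c y, hE.h213 b c y]
    have e4 : lpat E a b c y x = pat (E a b x) (E a c x) (E b c x) (E a x y) (E b x y) (E c x y) := by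
      unfold lpat
      rw [hE.h312 a b x, hE.h312 a c x, hE.h312 b c x, hE.h213 a x y, hE.h213 b x y, hE.h213 c x y]
    have e5 : lpat E a b c x y = pat (E a b y) (E a c y) (E b c y) (E a x y) (E b x y) (E c x y) := by
      unfold lpat
      rw [hE.h312 a b y, hE.h312 a c y, hE.h312 b c y, hE.h312 a x y, hE.h312 b x y, hE.h312 c x y]
    unfold sLink at h
    rw [Bool.or_eq_true, Bool.or_eq_true, Bool.or_eq_true, Bool.or_eq_true] at h
    unfold g5
    rcases h with (((h | h) | h) | h) | h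
    · have : Lk E χ M b c x y a = 1 := by
        unfold Lk
        rw [e1, if_pos h]
      linarith [n a c x y b, n a b x y c, n a b c y x, n a b c x y]
    · have : Lk E χ M a c x y b = 1 := by
        unfold Lk
        rw [e2, if_pos h]
      linarith [n b c x y a, n a b x y c, n a b c y x, n a b c x y]
    · have : Lk E χ M a b x y c = 1 := by
        unfold Lk
        rw [e3, if_pos h]
      linarith [n b c x y a, n a c x y b, n a b c y x, n a b c x y]
    · have : Lk E χ M a b c y x = 1 := by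
        unfold Lk
        rw [e4, if_pos h]
      linarith [n b c x y a, n a c x y b, n a b x y c, n a b c x y]
    · have : Lk E χ M a b c x y = 1 := by
        unfold Lk
        rw [e5, if_pos h]
      linarith [n b c x y a, n a c x y b, n a b x y c, n a b c y x]
  · left
    rw [← Bool.not_eq_true]
    exact h

/-- the indicator of: the link of `v` on the four other vertices is in the list -/
def Lp (E : V → V → V → ℕ) (M : ℕ) (p q r s v : V) : ℝ := if inM M (lpat E p q r s v) = true then 1 else 0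

theorem S5_Lk (U : Finset V) (w : V → ℝ) (r : ℝ) (M : ℕ) :
    S5 (w2 U w r) (Lk (E2 E U) (ch U) M) = ∑ a, ∑ b, ∑ c, ∑ x, ∑ y, w a * w b * w c * w x * wc U w r y * Lp E M a b c x y := by
  unfold S5
  have k : ∀ a b c x y : V ⊕ {v // v ∈ U}, Lk (E2 E U) (ch U) M a b c x y
      = (ch U y : ℝ) * Lp E M (pr U a) (pr U b) (pr U c) (pr U x) (pr U y) := by
    intro a b c x y
    unfold Lk Lp
    have h2 := ch_lt U y
    have e : lpat (E2 E U) a b c x y = lpat E (pr U a) (pr U b) (pr U c) (pr U x) (pr U y) := rfl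
    rw [e]
    interval_cases h : ch U y
    · simp
    · simp
  simp only [k]
  have e1 : ∀ a b c x, ∑ y, w2 U w r a * w2 U w r b * w2 U w r c * w2 U w r x * w2 U w r y *
      ((ch U y : ℝ) * Lp E M (pr U a) (pr U b) (pr U c) (pr U x) (pr U y))
      = w2 U w r x * (w2 U w r a * w2 U w r b * w2 U w r c * ∑ v, wc U w r v * Lp E M (pr U a) (pr U b) (pr U c) (pr U x) v) := by
    intro a b c x
    rw [← sum_ch U w r (fun v => Lp E M (pr U a) (pr U b) (pr U c) (pr U x) v), mul_sum, mul_sum]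
    refine sum_congr rfl fun y _ => ?_
    ring
  simp only [e1]
  have e2 : ∀ a b c, ∑ x, w2 U w r x * (w2 U w r a * w2 U w r b * w2 U w r c *
      ∑ v, wc U w r v * Lp E M (pr U a) (pr U b) (pr U c) (pr U x) v)
      = w2 U w r c * (w2 U w r a * w2 U w r b * ∑ x, w x * ∑ v, wc U w r v * Lp E M (pr U a) (pr U b) (pr U c) x v) := by
    intro a b c
    rw [← sum_w2 U w r (fun x => ∑ v, wc U w r v * Lp E M (pr U a) (pr U b) (pr U c) x v), mul_sum, mul_sum]
    refine sum_congr rfl fun x _ => ?_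
    ring
  simp only [e2]
  have e3 : ∀ a b, ∑ c, w2 U w r c * (w2 U w r a * w2 U w r b *
      ∑ x, w x * ∑ v, wc U w r v * Lp E M (pr U a) (pr U b) (pr U c) x v)
      = w2 U w r b * (w2 U w r a * ∑ c, w c * ∑ x, w x * ∑ v, wc U w r v * Lp E M (pr U a) (pr U b) c x v) := by
    intro a b
    rw [← sum_w2 U w r (fun c => ∑ x, w x * ∑ v, wc U w r v * Lp E M (pr U a) (pr U b) c x v), mul_sum, mul_sum]
    refine sum_congr rfl fun c _ => ?_
    ring
  simp only [e3]
  have e4 : ∀ a, ∑ b, w2 U w r b * (w2 U w r a *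
      ∑ c, w c * ∑ x, w x * ∑ v, wc U w r v * Lp E M (pr U a) (pr U b) c x v)
      = w2 U w r a * ∑ b, w b * ∑ c, w c * ∑ x, w x * ∑ v, wc U w r v * Lp E M (pr U a) b c x v := by
    intro a
    rw [← sum_w2 U w r (fun b => ∑ c, w c * ∑ x, w x * ∑ v, wc U w r v * Lp E M (pr U a) b c x v), mul_sum]
    refine sum_congr rfl fun b _ => ?_
    ring
  simp only [e4]
  rw [sum_w2 U w r (fun a => ∑ b, w b * ∑ c, w c * ∑ x, w x * ∑ v, wc U w r v * Lp E M a b c x v)]
  refine sum_congr rfl fun a _ => ?_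
  rw [mul_sum]
  refine sum_congr rfl fun b _ => ?_
  rw [mul_sum, mul_sum]
  refine sum_congr rfl fun c _ => ?_
  rw [mul_sum, mul_sum, mul_sum]
  refine sum_congr rfl fun x _ => ?_
  rw [mul_sum, mul_sum, mul_sum, mul_sum]
  refine sum_congr rfl fun y _ => ?_
  ring

/-- the combined inequality for a set `U` of vertices with at least the fraction `N / D` of the weight, with
exceptions in the links of the vertices of `U` -/
theorem masterL (hE : Sy E) (hK : NoK4 E) {w : V → ℝ} (hw : w ∈ stdSimplex ℝ V) (U : Finset V) (M : ℕ)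
    {t1 t2 t3 t4 K S N D th o1 o2 o3 o4 : ℕ} {q : ℕ → ℕ → ℤ} {qn : ℕ → ℤ} {G F : List (List (List ℤ))}
    {C : List ℤ}
    (hqn : ∀ i < 16, ∑ k ∈ range 20, q i k ^ 2 = qn i)
    (h1 : all1 t1 S th 0 o1 q qn = true) (h2 : all2 t2 o2 G = true) (h3 : all3 t3 o3 F = true)
    (h4 : all4 t4 o4 N D C = true) (hF : allF t1 t2 t3 t4 K (sLink M) = true) (hN0 : 0 < N) (hD0 : 0 < D) (hS : 0 < S)
    (hU : (N : ℝ) / D ≤ ∑ u ∈ U, w u) :
    335504400 * T3 E w w w + 444360 * T3 E w w w ^ 2
      + 105 * (((K : ℝ) - 10 * o1 - 10 * o2 - 15 * o3 - 5 * o4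
        - K * (5 * ∑ a, ∑ b, ∑ c, ∑ x, ∑ y, w a * w b * w c * w x * (if y ∈ U then w y else 0) * Lp E M a b c x y)) / 120
        - th * (5 - 9 * T3 E w w w)) / S ≤ 187199897 := by
  have hN0' : (0 : ℝ) < N := by exact_mod_cast hN0
  have hD0' : (0 : ℝ) < D := by exact_mod_cast hD0
  have hS' : (0 : ℝ) < S := by exact_mod_cast hS
  have hpos : 0 < ∑ u ∈ U, w u := lt_of_lt_of_le (by positivity) hU
  set r : ℝ := N / (D * ∑ u ∈ U, w u) with hr
  have hr0 : 0 ≤ r := by positivity
  have hr1 : r ≤ 1 := by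
    rw [hr, div_le_one (by positivity)]
    rwa [div_le_iff₀ hD0', mul_comm] at hU
  have hw2 := w2_mem hw U hr0 hr1
  have hf : D * r * ∑ v ∈ U, w v = N := by
    rw [hr]
    field_simp
  have hy := hyb (E := E2 E U) (χ := ch U) (E2_sy hE U) (E2_no hK U) (ch_lt U) hw2 hqn h1 h2 h3 h4 hF
    (frac hw U hf) (g5 (Lk (E2 E U) (ch U) M)) (fun a b c x y => by
      unfold g5
      have n := Lk_nonneg (E := E2 E U) (ch U) M
      linarith [n b c x y a, n a c x y b, n a b x y c, n a b c y x, n a b c x y])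
      (fun a b c x y => sLink_bad (E2_sy hE U) (ch U) M a b c x y)
  have h5 : S5 (w2 U w r) (g5 (Lk (E2 E U) (ch U) M)) = 5 * S5 (w2 U w r) (Lk (E2 E U) (ch U) M) :=
    sym5 (w2 U w r) (Lk (E2 E U) (ch U) M)
  rw [h5, S5_Lk, T3_E2] at hy
  have hle : ∑ a, ∑ b, ∑ c, ∑ x, ∑ y, w a * w b * w c * w x * wc U w r y * Lp E M a b c x y
      ≤ ∑ a, ∑ b, ∑ c, ∑ x, ∑ y, w a * w b * w c * w x * (if y ∈ U then w y else 0) * Lp E M a b c x y := by
    refine sum_le_sum fun a _ => sum_le_sum fun b _ => sum_le_sum fun c _ => sum_le_sum fun x _ => sum_le_sum fun y _ => ?_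
    have hL : 0 ≤ Lp E M a b c x y := by
      unfold Lp
      split_ifs <;> norm_num
    refine mul_le_mul_of_nonneg_right ?_ hL
    refine mul_le_mul_of_nonneg_left ?_ (mul_nonneg (mul_nonneg (mul_nonneg (hw.1 a) (hw.1 b)) (hw.1 c)) (hw.1 x))
    unfold wc
    split_ifs with h
    · exact mul_le_of_le_one_left (hw.1 y) hr1
    · exact le_rfl
  have hm := main_real (E := E2 E U) (E2_sy hE U) (E2_no hK U) hw2
  rw [T3_E2] at hm
  set Z := ∑ a, ∑ b, ∑ c, w2 U w r a * w2 U w r b * w2 U w r c * Zb (E2 E U) (w2 U w r) a b c with hZ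
  set B1 := ∑ a, ∑ b, ∑ c, ∑ x, ∑ y, w a * w b * w c * w x * wc U w r y * Lp E M a b c x y
  set B2 := ∑ a, ∑ b, ∑ c, ∑ x, ∑ y, w a * w b * w c * w x * (if y ∈ U then w y else 0) * Lp E M a b c x y
  have hK0 : (0 : ℝ) ≤ K := Nat.cast_nonneg _
  have hKB : (K : ℝ) * (5 * B1) ≤ K * (5 * B2) := mul_le_mul_of_nonneg_left (by linarith) hK0
  have : (((K : ℝ) - 10 * o1 - 10 * o2 - 15 * o3 - 5 * o4 - K * (5 * B2)) / 120 - th * (5 - 9 * T3 E w w w)) / S ≤ Z := by
    rw [div_le_iff₀ hS']
    push_cast at hy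
    linarith
  have h105 : 105 * (((K : ℝ) - 10 * o1 - 10 * o2 - 15 * o3 - 5 * o4 - K * (5 * B2)) / 120 - th * (5 - 9 * T3 E w w w)) / S
      = 105 * ((((K : ℝ) - 10 * o1 - 10 * o2 - 15 * o3 - 5 * o4 - K * (5 * B2)) / 120 - th * (5 - 9 * T3 E w w w)) / S) := by
    ring
  rw [h105]
  linarith

end

end

end Pool.Agent.Q113.Hyb
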