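import Pool.Agent.Q113.Hyb.Link
import Pool.Agent.Q113.Hyb.TriEq
import Pool.Agent.H122R2.N6.Count

/-! Counting of induced subgraphs with four vertices in the links. -/

set_option autoImplicit false
set_option maxRecDepth 100000
open Finset
open scoped Classical
open Pool.Agent.H122R2.N6
open Pool.Agent.Q113.Cov

namespace Pool.Agent.Q113.Hyb

noncomputable section

/-- the adjacency matrix of a graph with four vertices -/
def mat (e01 e02 e12 e03 e13 e23 : ℕ) : Fin 4 → Fin 4 → ℕ :=
  ![![0, e01, e02, e03], ![e01, 0, e12, e13], ![e02, e12, 0, e23], ![e03, e13, e23, 0]]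

/-- all graphs in the list `M` are isomorphic to `F` -/
def Good (M : ℕ) (F : Finset (Finset (Fin 4))) : Prop :=
  ∀ e01 e02 e12 e03 e13 e23 : Fin 2, inM M (pat e01 e02 e12 e03 e13 e23) = true →
    ∃ σ : Equiv.Perm (Fin 4), ∀ i j : Fin 4, i ≠ j →
      (mat e01 e02 e12 e03 e13 e23 i j = 1 ↔ ({σ i, σ j} : Finset (Fin 4)) ∈ F)

/-- The link of `v` in `H` induces a graph isomorphic to `F` on the ordered quadruple `f`. -/
def LinkIso {n : ℕ} (H : Finset (Finset (Fin n))) (F : Finset (Finset (Fin 4))) (v : Fin n)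
    (f : Fin 4 → Fin n) : Prop :=
  Function.Injective f ∧ (∀ i, f i ≠ v) ∧ ∃ σ : Equiv.Perm (Fin 4), ∀ i j : Fin 4, i ≠ j →
    (({v, f i, f j} : Finset (Fin n)) ∈ H ↔ ({σ i, σ j} : Finset (Fin 4)) ∈ F)

/-- the number of ordered quadruples in the links of the vertices of `U` which induce `F` -/
def ordered {n : ℕ} (H : Finset (Finset (Fin n))) (F : Finset (Finset (Fin 4))) (U : Finset (Fin n)) : ℕ :=
  ((univ : Finset (Fin n × (Fin 4 → Fin n))).filter fun p => p.1 ∈ U ∧ LinkIso H F p.1 p.2).card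

theorem tri_bit {n : ℕ} (H : Finset (Finset (Fin n))) (x y z : Fin n) :
    ∃ e : Fin 2, tri H x y z = e ∧ ((e : ℕ) = 1 ↔ ({x, y, z} : Finset (Fin n)) ∈ H) := by
  by_cases h : ({x, y, z} : Finset (Fin n)) ∈ H
  · refine ⟨1, ?_, ?_⟩
    · rw [tri_pos h]
      rfl
    · simp [h]
  · refine ⟨0, ?_, ?_⟩
    · rw [tri_neg h]
      rfl
    · simp [h]

theorem iso_of {n : ℕ} {H : Finset (Finset (Fin n))} {M : ℕ} {F : Finset (Finset (Fin 4))} (hM : Good M F)
    {a b c x y : Fin n} (hd : Function.Injective ![a, b, c, x]) (hy : ∀ i, ![a, b, c, x] i ≠ y)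
    (h : inM M (lpat (tri H) a b c x y) = true) : LinkIso H F y ![a, b, c, x] := by
  obtain ⟨e01, h01, i01⟩ := tri_bit H y a b
  obtain ⟨e02, h02, i02⟩ := tri_bit H y a c
  obtain ⟨e12, h12, i12⟩ := tri_bit H y b c
  obtain ⟨e03, h03, i03⟩ := tri_bit H y a x
  obtain ⟨e13, h13, i13⟩ := tri_bit H y b x
  obtain ⟨e23, h23, i23⟩ := tri_bit H y c x
  unfold lpat at h
  rw [h01, h02, h12, h03, h13, h23] at h
  obtain ⟨σ, hσ⟩ := hM e01 e02 e12 e03 e13 e23 h
  refine ⟨hd, hy, σ, fun i j hij => ?_⟩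
  rw [← hσ i j hij]
  have sw : ∀ p q : Fin n, ({y, p, q} : Finset (Fin n)) = {y, q, p} := fun p q => by
    rw [pair_comm]
  fin_cases i <;> fin_cases j
  · exact absurd rfl hij
  · exact i01.symm
  · exact i02.symm
  · exact i03.symm
  · show ({y, b, a} : Finset (Fin n)) ∈ H ↔ _
    rw [sw]
    exact i01.symm
  · exact absurd rfl hij
  · exact i12.symm
  · exact i13.symm
  · show ({y, c, a} : Finset (Fin n)) ∈ H ↔ _
    rw [sw]
    exact i02.symm
  · show ({y, c, b} : Finset (Fin n)) ∈ H ↔ _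
    rw [sw]
    exact i12.symm
  · exact absurd rfl hij
  · exact i23.symm
  · show ({y, x, a} : Finset (Fin n)) ∈ H ↔ _
    rw [sw]
    exact i03.symm
  · show ({y, x, b} : Finset (Fin n)) ∈ H ↔ _
    rw [sw]
    exact i13.symm
  · show ({y, x, c} : Finset (Fin n)) ∈ H ↔ _
    rw [sw]
    exact i23.symm
  · exact absurd rfl hij

/-- the indicator of an ordered quadruple with five different vertices -/
def ind5 {n : ℕ} (H : Finset (Finset (Fin n))) (F : Finset (Finset (Fin 4))) (U : Finset (Fin n))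
    (a b c x y : Fin n) : ℝ := if y ∈ U ∧ LinkIso H F y ![a, b, c, x] then 1 else 0

theorem sum_ind5 {n : ℕ} (H : Finset (Finset (Fin n))) (F : Finset (Finset (Fin 4))) (U : Finset (Fin n)) :
    ∑ a, ∑ b, ∑ c, ∑ x, ∑ y, ind5 H F U a b c x y ≤ (ordered H F U : ℝ) := by
  have e : ∑ a, ∑ b, ∑ c, ∑ x, ∑ y, ind5 H F U a b c x y
      = (((univ : Finset (Fin n × Fin n × Fin n × Fin n × Fin n)).filter fun t =>
        t.2.2.2.2 ∈ U ∧ LinkIso H F t.2.2.2.2 ![t.1, t.2.1, t.2.2.1, t.2.2.2.1]).card : ℝ) := by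
    rw [card_filter]
    push_cast
    simp only [Fintype.sum_prod_type]
    rfl
  rw [e]
  unfold ordered
  norm_cast
  refine card_le_card_of_injOn (fun t => (t.2.2.2.2, ![t.1, t.2.1, t.2.2.1, t.2.2.2.1])) ?_ ?_
  · intro t ht
    have ht' := (mem_filter.mp (mem_coe.mp ht)).2
    exact mem_coe.mpr (mem_filter.mpr ⟨mem_univ _, ht'⟩)
  · rintro ⟨a, b, c, x, y⟩ _ ⟨a', b', c', x', y'⟩ _ h
    simp only [Prod.mk.injEq] at h
    obtain ⟨h1, h2⟩ := h
    have q0 := congrFun h2 0
    have q1 := congrFun h2 1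
    have q2 := congrFun h2 2
    have q3 := congrFun h2 3
    simp at q0 q1 q2 q3
    subst h1 q0 q1 q2 q3
    rfl

theorem card_bad {n : ℕ} {H : Finset (Finset (Fin n))} {M : ℕ} {F : Finset (Finset (Fin 4))} (hM : Good M F)
    (U : Finset (Fin n)) :
    ∑ a, ∑ b, ∑ c, ∑ x, ∑ y, (if y ∈ U then Lp (tri H) M a b c x y else 0) ≤ (ordered H F U : ℝ) + 10 * (n : ℝ) ^ 4 := by
  have hp : ∀ a b c x y : Fin n, (if y ∈ U then Lp (tri H) M a b c x y else 0) ≤ ind5 H F U a b c x y
      + ((if a = b then (1 : ℝ) else 0) + (if a = c then (1 : ℝ) else 0) + (if a = x then (1 : ℝ) else 0)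
      + (if a = y then (1 : ℝ) else 0) + (if b = c then (1 : ℝ) else 0) + (if b = x then (1 : ℝ) else 0)
      + (if b = y then (1 : ℝ) else 0) + (if c = x then (1 : ℝ) else 0) + (if c = y then (1 : ℝ) else 0)
      + (if x = y then (1 : ℝ) else 0)) := by
    intro a b c x y
    have n0 : ∀ (p : Prop) [Decidable p], (0 : ℝ) ≤ if p then 1 else 0 := fun p _ => by split_ifs <;> norm_num
    have i0 : 0 ≤ ind5 H F U a b c x y := n0 _
    have hL : (if y ∈ U then Lp (tri H) M a b c x y else 0) ≤ 1 := by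
      unfold Lp
      split_ifs <;> norm_num
    have m1 := n0 (a = b)
    have m2 := n0 (a = c)
    have m3 := n0 (a = x)
    have m4 := n0 (a = y)
    have m5 := n0 (b = c)
    have m6 := n0 (b = x)
    have m7 := n0 (b = y)
    have m8 := n0 (c = x)
    have m9 := n0 (c = y)
    have m10 := n0 (x = y)
    by_cases h1 : a = b
    · rw [if_pos h1] at m1 ⊢; linarith
    by_cases h2 : a = c
    · rw [if_pos h2] at m2 ⊢; linarith
    by_cases h3 : a = x
    · rw [if_pos h3] at m3 ⊢; linarith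
    by_cases h4 : a = y
    · rw [if_pos h4] at m4 ⊢; linarith
    by_cases h5 : b = c
    · rw [if_pos h5] at m5 ⊢; linarith
    by_cases h6 : b = x
    · rw [if_pos h6] at m6 ⊢; linarith
    by_cases h7 : b = y
    · rw [if_pos h7] at m7 ⊢; linarith
    by_cases h8 : c = x
    · rw [if_pos h8] at m8 ⊢; linarith
    by_cases h9 : c = y
    · rw [if_pos h9] at m9 ⊢; linarith
    by_cases h10 : x = y
    · rw [if_pos h10] at m10 ⊢; linarith
    have hle : (if y ∈ U then Lp (tri H) M a b c x y else 0) ≤ ind5 H F U a b c x y := by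
      by_cases hy : y ∈ U
      · rw [if_pos hy]
        unfold Lp
        by_cases hm : inM M (lpat (tri H) a b c x y) = true
        · rw [if_pos hm]
          unfold ind5
          have d1 : Function.Injective ![a, b, c, x] := by
            intro i j hij
            fin_cases i <;> fin_cases j <;> simp_all
          have d2 : ∀ i, ![a, b, c, x] i ≠ y := by
            intro i
            fin_cases i <;> simp_all
          rw [if_pos ⟨hy, iso_of hM d1 d2 hm⟩]
        · rw [if_neg hm]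
          exact i0
      · rw [if_neg hy]
        exact i0
    linarith
  refine (sum_le_sum fun a _ => sum_le_sum fun b _ => sum_le_sum fun c _ => sum_le_sum fun x _ =>
    sum_le_sum fun y _ => hp a b c x y).trans ?_
  simp only [sum_add_distrib]
  refine add_le_add (sum_ind5 H F U) ?_
  simp only [sum_const, card_univ, Fintype.card_fin, nsmul_eq_mul, ← mul_sum, sum_ite_eq, mem_univ, if_true, mul_one]
  apply le_of_eq
  ring

end

end Pool.Agent.Q113.Hyb
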