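import Pool.Agent.Q113.Hyb.LinkCount
import Pool.Agent.Q113.Hyb.LC
import Pool.Agent.Q113.Hyb.LW
import Pool.Agent.Q113.Hyb.LP
import Pool.Agent.Q113.Hyb.LD
import Pool.Agent.Q113.Hyb.LK
import Pool.Agent.Q113.Hyb.LE

/-! Six graphs with four vertices. -/

set_option autoImplicit false
set_option maxRecDepth 100000
open Finset
open scoped Classical
open Pool.Agent.H122R2.N6
open Pool.Agent.Q113.Cov

namespace Pool.Agent.Q113.Hyb

/-- the cycle with four vertices -/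
def fourCycle : Finset (Finset (Fin 4)) := {{0, 1}, {1, 2}, {2, 3}, {0, 3}}
/-- the claw `K_{1,3}` -/
def claw : Finset (Finset (Fin 4)) := {{0, 1}, {0, 2}, {0, 3}}
/-- the paw, a triangle with a pendant edge -/
def paw : Finset (Finset (Fin 4)) := {{0, 1}, {0, 2}, {1, 2}, {0, 3}}
/-- the diamond `K_4^-` -/
def diamond : Finset (Finset (Fin 4)) := {{0, 2}, {1, 2}, {0, 3}, {1, 3}, {2, 3}}
/-- the complete graph `K_4` -/
def clique : Finset (Finset (Fin 4)) := {{0, 1}, {0, 2}, {1, 2}, {0, 3}, {1, 3}, {2, 3}}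
/-- an edge with two isolated vertices -/
def oneEdge : Finset (Finset (Fin 4)) := {{0, 1}}

noncomputable section

/-- the weighted number of induced copies -/
def BS {V : Type} [Fintype V] [DecidableEq V] (E : V → V → V → ℕ) (w : V → ℝ) (U : Finset V) (M : ℕ) : ℝ :=
  ∑ a, ∑ b, ∑ c, ∑ x, ∑ y, w a * w b * w c * w x * (if y ∈ U then w y else 0) * Lp E M a b c x y

theorem BS_nonneg {V : Type} [Fintype V] [DecidableEq V] (E : V → V → V → ℕ) {w : V → ℝ} (hw : ∀ v, 0 ≤ w v)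
    (U : Finset V) (M : ℕ) : 0 ≤ BS E w U M := by
  unfold BS
  refine sum_nonneg fun a _ => sum_nonneg fun b _ => sum_nonneg fun c _ => sum_nonneg fun x _ => sum_nonneg fun y _ => ?_
  refine mul_nonneg (mul_nonneg (mul_nonneg (mul_nonneg (mul_nonneg (hw a) (hw b)) (hw c)) (hw x)) ?_) ?_
  · split_ifs
    exacts [hw y, le_rfl]
  · unfold Lp
    split_ifs <;> norm_num

theorem fourCycle_good : Good 2286985259515904 fourCycle := by
  unfold Good
  decide +kernel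

theorem fourCycle_le {V : Type} [Fintype V] [DecidableEq V] {E : V → V → V → ℕ} (hE : Sy E) (hK : NoK4 E) {w : V → ℝ}
    (hw : w ∈ stdSimplex ℝ V) (U : Finset V) (hU : 1 / 15 ≤ ∑ u ∈ U, w u) :
    T3 E w w w ≤ 5 / 9 - 1 / 15000 + 2000 * BS E w U 2286985259515904 := by
  have h := masterL hE hK hw U 2286985259515904 (S := 1000) (N := 1) (D := 15) LC.hqn LC.h1 LC.h2 LC.h3 LC.h4 LC.hF
    (by norm_num) (by norm_num) (by norm_num) (by push_cast; exact hU)
  have hB := BS_nonneg E (fun v => hw.1 v) U 2286985259515904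
  change _ + _ + 105 * ((_ - _ - _ - _ - _ - _ * (5 * BS E w U 2286985259515904)) / 120 - _) / _ ≤ _ at h
  push_cast at h
  have hT : 0 ≤ (T3 E w w w - 5 / 9) ^ 2 := sq_nonneg _
  nlinarith

theorem claw_good : Good 72057868917934080 claw := by
  unfold Good
  decide +kernel

theorem claw_le {V : Type} [Fintype V] [DecidableEq V] {E : V → V → V → ℕ} (hE : Sy E) (hK : NoK4 E) {w : V → ℝ}
    (hw : w ∈ stdSimplex ℝ V) (U : Finset V) (hU : 1 / 16 ≤ ∑ u ∈ U, w u) :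
    T3 E w w w ≤ 5 / 9 - 1 / 15000 + 2000 * BS E w U 72057868917934080 := by
  have h := masterL hE hK hw U 72057868917934080 (S := 1000) (N := 1) (D := 16) LW.hqn LW.h1 LW.h2 LW.h3 LW.h4 LW.hF
    (by norm_num) (by norm_num) (by norm_num) (by push_cast; exact hU)
  have hB := BS_nonneg E (fun v => hw.1 v) U 72057868917934080
  change _ + _ + 105 * ((_ - _ - _ - _ - _ - _ * (5 * BS E w U 72057868917934080)) / 120 - _) / _ ≤ _ at h
  push_cast at h
  have hT : 0 ≤ (T3 E w w w - 5 / 9) ^ 2 := sq_nonneg _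
  nlinarith

theorem paw_good : Good 1612368381871161344 paw := by
  unfold Good
  decide +kernel

theorem paw_le {V : Type} [Fintype V] [DecidableEq V] {E : V → V → V → ℕ} (hE : Sy E) (hK : NoK4 E) {w : V → ℝ}
    (hw : w ∈ stdSimplex ℝ V) (U : Finset V) (hU : 1 / 11 ≤ ∑ u ∈ U, w u) :
    T3 E w w w ≤ 5 / 9 - 1 / 15000 + 2000 * BS E w U 1612368381871161344 := by
  have h := masterL hE hK hw U 1612368381871161344 (S := 1000) (N := 1) (D := 11) LP.hqn LP.h1 LP.h2 LP.h3 LP.h4 LP.hF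
    (by norm_num) (by norm_num) (by norm_num) (by push_cast; exact hU)
  have hB := BS_nonneg E (fun v => hw.1 v) U 1612368381871161344
  change _ + _ + 105 * ((_ - _ - _ - _ - _ - _ * (5 * BS E w U 1612368381871161344)) / 120 - _) / _ ≤ _ at h
  push_cast at h
  have hT : 0 ≤ (T3 E w w w - 5 / 9) ^ 2 := sq_nonneg _
  nlinarith

theorem diamond_good : Good 7530159316599308288 diamond := by
  unfold Good
  decide +kernel

theorem diamond_le {V : Type} [Fintype V] [DecidableEq V] {E : V → V → V → ℕ} (hE : Sy E) (hK : NoK4 E) {w : V → ℝ}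
    (hw : w ∈ stdSimplex ℝ V) (U : Finset V) (hU : 1 / 4 ≤ ∑ u ∈ U, w u) :
    T3 E w w w ≤ 5 / 9 - 1 / 15000 + 2000 * BS E w U 7530159316599308288 := by
  have h := masterL hE hK hw U 7530159316599308288 (S := 1000) (N := 1) (D := 4) LD.hqn LD.h1 LD.h2 LD.h3 LD.h4 LD.hF
    (by norm_num) (by norm_num) (by norm_num) (by push_cast; exact hU)
  have hB := BS_nonneg E (fun v => hw.1 v) U 7530159316599308288
  change _ + _ + 105 * ((_ - _ - _ - _ - _ - _ * (5 * BS E w U 7530159316599308288)) / 120 - _) / _ ≤ _ at h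
  push_cast at h
  have hT : 0 ≤ (T3 E w w w - 5 / 9) ^ 2 := sq_nonneg _
  nlinarith

theorem clique_good : Good 9223372036854775808 clique := by
  unfold Good
  decide +kernel

theorem clique_le {V : Type} [Fintype V] [DecidableEq V] {E : V → V → V → ℕ} (hE : Sy E) (hK : NoK4 E) {w : V → ℝ}
    (hw : w ∈ stdSimplex ℝ V) (U : Finset V) (hU : 13 / 20 ≤ ∑ u ∈ U, w u) :
    T3 E w w w ≤ 5 / 9 - 1 / 15000 + 2000 * BS E w U 9223372036854775808 := by
  have h := masterL hE hK hw U 9223372036854775808 (S := 1000) (N := 13) (D := 20) LK.hqn LK.h1 LK.h2 LK.h3 LK.h4 LK.hF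
    (by norm_num) (by norm_num) (by norm_num) (by push_cast; exact hU)
  have hB := BS_nonneg E (fun v => hw.1 v) U 9223372036854775808
  change _ + _ + 105 * ((_ - _ - _ - _ - _ - _ * (5 * BS E w U 9223372036854775808)) / 120 - _) / _ ≤ _ at h
  push_cast at h
  have hT : 0 ≤ (T3 E w w w - 5 / 9) ^ 2 := sq_nonneg _
  nlinarith

theorem oneEdge_good : Good 4295033110 oneEdge := by
  unfold Good
  decide +kernel

theorem oneEdge_le {V : Type} [Fintype V] [DecidableEq V] {E : V → V → V → ℕ} (hE : Sy E) (hK : NoK4 E) {w : V → ℝ}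
    (hw : w ∈ stdSimplex ℝ V) (U : Finset V) (hU : 2 / 5 ≤ ∑ u ∈ U, w u) :
    T3 E w w w ≤ 5 / 9 - 1 / 15000 + 2000 * BS E w U 4295033110 := by
  have h := masterL hE hK hw U 4295033110 (S := 1000) (N := 2) (D := 5) LE.hqn LE.h1 LE.h2 LE.h3 LE.h4 LE.hF
    (by norm_num) (by norm_num) (by norm_num) (by push_cast; exact hU)
  have hB := BS_nonneg E (fun v => hw.1 v) U 4295033110
  change _ + _ + 105 * ((_ - _ - _ - _ - _ - _ * (5 * BS E w U 4295033110)) / 120 - _) / _ ≤ _ at h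
  push_cast at h
  have hT : 0 ≤ (T3 E w w w - 5 / 9) ^ 2 := sq_nonneg _
  nlinarith

theorem count_of {n : ℕ} {H : Finset (Finset (Fin n))} (h3 : ∀ e ∈ H, e.card = 3) {M : ℕ}
    {F : Finset (Finset (Fin 4))} (hM : Good M F) (U : Finset (Fin n)) (hn : 0 < n)
    (h : T3 (tri H) (fun _ => 1 / (n : ℝ)) (fun _ => 1 / (n : ℝ)) (fun _ => 1 / (n : ℝ)) ≤
      5 / 9 - 1 / 15000 + 2000 * BS (tri H) (fun _ => 1 / (n : ℝ)) U M) :
    6 * (H.card : ℝ) * (n : ℝ) ^ 2 ≤ (5 / 9 - 1 / 15000) * (n : ℝ) ^ 5 + 2000 * ordered H F U + 20000 * (n : ℝ) ^ 4 := by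
  have hn' : (0 : ℝ) < n := by exact_mod_cast hn
  have h6 := six_weight_le (w := fun _ : Fin n => 1 / (n : ℝ)) h3 (fun v => by positivity)
  have e1 : ∑ e ∈ H, ∏ _v ∈ e, (1 / (n : ℝ)) = H.card * (1 / (n : ℝ)) ^ 3 := by
    rw [sum_congr rfl fun e he => by rw [prod_const, h3 e he], sum_const, nsmul_eq_mul]
  rw [e1] at h6
  have e2 : BS (tri H) (fun _ => 1 / (n : ℝ)) U M
      = (1 / (n : ℝ)) ^ 5 * ∑ a, ∑ b, ∑ c, ∑ x, ∑ y, (if y ∈ U then Lp (tri H) M a b c x y else 0) := by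
    unfold BS
    simp only [mul_sum]
    refine sum_congr rfl fun a _ => sum_congr rfl fun b _ => sum_congr rfl fun c _ => sum_congr rfl fun x _ =>
      sum_congr rfl fun y _ => ?_
    split_ifs <;> ring
  have h7 := card_bad hM (H := H) U
  have h8 : BS (tri H) (fun _ => 1 / (n : ℝ)) U M ≤ (1 / (n : ℝ)) ^ 5 * (ordered H F U + 10 * (n : ℝ) ^ 4) := by
    rw [e2]
    exact mul_le_mul_of_nonneg_left h7 (by positivity)
  have h9 : 6 * (H.card * (1 / (n : ℝ)) ^ 3) ≤ 5 / 9 - 1 / 15000 + 2000 * ((1 / (n : ℝ)) ^ 5 * (ordered H F U + 10 * (n : ℝ) ^ 4)) := by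
    linarith
  have h10 := mul_le_mul_of_nonneg_right h9 (by positivity : (0 : ℝ) ≤ (n : ℝ) ^ 5)
  have e3 : 6 * (H.card * (1 / (n : ℝ)) ^ 3) * (n : ℝ) ^ 5 = 6 * (H.card : ℝ) * (n : ℝ) ^ 2 := by
    field_simp
  have e4 : (5 / 9 - 1 / 15000 + 2000 * ((1 / (n : ℝ)) ^ 5 * (ordered H F U + 10 * (n : ℝ) ^ 4))) * (n : ℝ) ^ 5
      = (5 / 9 - 1 / 15000) * (n : ℝ) ^ 5 + 2000 * (ordered H F U + 10 * (n : ℝ) ^ 4) := by
    field_simp
  rw [e3, e4] at h10
  linarith

theorem unif_mem {n : ℕ} (hn : 0 < n) : (fun _ => 1 / (n : ℝ)) ∈ stdSimplex ℝ (Fin n) := by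
  have hn' : (0 : ℝ) < n := by exact_mod_cast hn
  refine ⟨fun v => by positivity, ?_⟩
  rw [sum_const, card_univ, Fintype.card_fin, nsmul_eq_mul]
  field_simp

theorem unif_sum {n : ℕ} (hn : 0 < n) {c : ℝ} {U : Finset (Fin n)} (h : c * n ≤ U.card) :
    c ≤ ∑ _u ∈ U, 1 / (n : ℝ) := by
  have hn' : (0 : ℝ) < n := by exact_mod_cast hn
  rw [sum_const, nsmul_eq_mul, mul_one_div, le_div_iff₀ hn']
  exact h

theorem fourCycle_fin {n : ℕ} {H : Finset (Finset (Fin n))} (h3 : ∀ e ∈ H, e.card = 3) (hK : K43Free H)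
    (U : Finset (Fin n)) (hU : 1 / 15 * (n : ℝ) ≤ U.card) :
    6 * (H.card : ℝ) * (n : ℝ) ^ 2 ≤ (5 / 9 - 1 / 15000) * (n : ℝ) ^ 5 + 2000 * ordered H fourCycle U + 20000 * (n : ℝ) ^ 4 := by
  rcases Nat.eq_zero_or_pos n with rfl | hn
  · have h0 : (0 : ℝ) ≤ 2000 * ordered H fourCycle U := by positivity
    simp only [Nat.cast_zero]
    linarith
  · exact count_of h3 fourCycle_good U hn (fourCycle_le (tri_sy H) (tri_noK4 h3 hK) (unif_mem hn) U (unif_sum hn hU))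

theorem claw_fin {n : ℕ} {H : Finset (Finset (Fin n))} (h3 : ∀ e ∈ H, e.card = 3) (hK : K43Free H)
    (U : Finset (Fin n)) (hU : 1 / 16 * (n : ℝ) ≤ U.card) :
    6 * (H.card : ℝ) * (n : ℝ) ^ 2 ≤ (5 / 9 - 1 / 15000) * (n : ℝ) ^ 5 + 2000 * ordered H claw U + 20000 * (n : ℝ) ^ 4 := by
  rcases Nat.eq_zero_or_pos n with rfl | hn
  · have h0 : (0 : ℝ) ≤ 2000 * ordered H claw U := by positivity
    simp only [Nat.cast_zero]
    linarith
  · exact count_of h3 claw_good U hn (claw_le (tri_sy H) (tri_noK4 h3 hK) (unif_mem hn) U (unif_sum hn hU))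

theorem paw_fin {n : ℕ} {H : Finset (Finset (Fin n))} (h3 : ∀ e ∈ H, e.card = 3) (hK : K43Free H)
    (U : Finset (Fin n)) (hU : 1 / 11 * (n : ℝ) ≤ U.card) :
    6 * (H.card : ℝ) * (n : ℝ) ^ 2 ≤ (5 / 9 - 1 / 15000) * (n : ℝ) ^ 5 + 2000 * ordered H paw U + 20000 * (n : ℝ) ^ 4 := by
  rcases Nat.eq_zero_or_pos n with rfl | hn
  · have h0 : (0 : ℝ) ≤ 2000 * ordered H paw U := by positivity
    simp only [Nat.cast_zero]
    linarith
  · exact count_of h3 paw_good U hn (paw_le (tri_sy H) (tri_noK4 h3 hK) (unif_mem hn) U (unif_sum hn hU))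

theorem diamond_fin {n : ℕ} {H : Finset (Finset (Fin n))} (h3 : ∀ e ∈ H, e.card = 3) (hK : K43Free H)
    (U : Finset (Fin n)) (hU : 1 / 4 * (n : ℝ) ≤ U.card) :
    6 * (H.card : ℝ) * (n : ℝ) ^ 2 ≤ (5 / 9 - 1 / 15000) * (n : ℝ) ^ 5 + 2000 * ordered H diamond U + 20000 * (n : ℝ) ^ 4 := by
  rcases Nat.eq_zero_or_pos n with rfl | hn
  · have h0 : (0 : ℝ) ≤ 2000 * ordered H diamond U := by positivity
    simp only [Nat.cast_zero]
    linarith
  · exact count_of h3 diamond_good U hn (diamond_le (tri_sy H) (tri_noK4 h3 hK) (unif_mem hn) U (unif_sum hn hU))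

theorem clique_fin {n : ℕ} {H : Finset (Finset (Fin n))} (h3 : ∀ e ∈ H, e.card = 3) (hK : K43Free H)
    (U : Finset (Fin n)) (hU : 13 / 20 * (n : ℝ) ≤ U.card) :
    6 * (H.card : ℝ) * (n : ℝ) ^ 2 ≤ (5 / 9 - 1 / 15000) * (n : ℝ) ^ 5 + 2000 * ordered H clique U + 20000 * (n : ℝ) ^ 4 := by
  rcases Nat.eq_zero_or_pos n with rfl | hn
  · have h0 : (0 : ℝ) ≤ 2000 * ordered H clique U := by positivity
    simp only [Nat.cast_zero]
    linarith
  · exact count_of h3 clique_good U hn (clique_le (tri_sy H) (tri_noK4 h3 hK) (unif_mem hn) U (unif_sum hn hU))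

theorem oneEdge_fin {n : ℕ} {H : Finset (Finset (Fin n))} (h3 : ∀ e ∈ H, e.card = 3) (hK : K43Free H)
    (U : Finset (Fin n)) (hU : 2 / 5 * (n : ℝ) ≤ U.card) :
    6 * (H.card : ℝ) * (n : ℝ) ^ 2 ≤ (5 / 9 - 1 / 15000) * (n : ℝ) ^ 5 + 2000 * ordered H oneEdge U + 20000 * (n : ℝ) ^ 4 := by
  rcases Nat.eq_zero_or_pos n with rfl | hn
  · have h0 : (0 : ℝ) ≤ 2000 * ordered H oneEdge U := by positivity
    simp only [Nat.cast_zero]
    linarith
  · exact count_of h3 oneEdge_good U hn (oneEdge_le (tri_sy H) (tri_noK4 h3 hK) (unif_mem hn) U (unif_sum hn hU))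

end

end Pool.Agent.Q113.Hyb
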