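import Pool.Agent.Q113.Hyb.Defs

/-! Exceptional coloured structures of order five. -/

set_option autoImplicit false
set_option linter.unusedVariables false

namespace Pool.Agent.Q113.Hyb

/-- a triple with three coloured vertices -/
def s3 (e a b c : ℕ) : Bool := Nat.beq (Nat.add (Nat.add a b) (Nat.add c e)) 4
/-- a triple with exactly two coloured vertices -/
def s2 (e a b c : ℕ) : Bool := Nat.beq e 1 && Nat.beq (Nat.add (Nat.add a b) c) 2

/-- some edge has the property -/
def sAny (s : ℕ → ℕ → ℕ → ℕ → Bool) (c0 c1 c2 c3 c4 e012 e013 e023 e123 e014 e024 e124 e034 e134 e234 : ℕ) : Bool :=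
  s e012 c0 c1 c2 || s e013 c0 c1 c3 || s e023 c0 c2 c3 || s e123 c1 c2 c3 || s e014 c0 c1 c4 || s e024 c0 c2 c4
    || s e124 c1 c2 c4 || s e034 c0 c3 c4 || s e134 c1 c3 c4 || s e234 c2 c3 c4

/-- no exceptions -/
def sNo (c0 c1 c2 c3 c4 e012 e013 e023 e123 e014 e024 e124 e034 e134 e234 : ℕ) : Bool := false

end Pool.Agent.Q113.Hyb
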