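import Mathlib

/-! Sums over five vertices. -/

set_option autoImplicit false
open Finset

namespace Pool.Agent.Q113.Hyb

noncomputable section

section
variable {V : Type} [Fintype V] (w : V → ℝ)

/-- the weighted sum over five vertices -/
def S5 (F : V → V → V → V → V → ℝ) : ℝ := ∑ a, ∑ b, ∑ c, ∑ x, ∑ y, w a * w b * w c * w x * w y * F a b c x y

theorem sw0 (G : V → V → V → V → V → ℝ) : S5 w (fun a b c x y => G b a c x y) = S5 w G := by
  unfold S5
  rw [sum_comm]
  refine sum_congr rfl fun a _ => sum_congr rfl fun b _ => sum_congr rfl fun c _ => sum_congr rfl fun x _ =>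
    sum_congr rfl fun y _ => ?_
  ring

theorem sw1 (G : V → V → V → V → V → ℝ) : S5 w (fun a b c x y => G a c b x y) = S5 w G := by
  unfold S5
  refine sum_congr rfl fun a _ => ?_
  rw [sum_comm]
  refine sum_congr rfl fun b _ => sum_congr rfl fun c _ => sum_congr rfl fun x _ => sum_congr rfl fun y _ => ?_
  ring

theorem sw2 (G : V → V → V → V → V → ℝ) : S5 w (fun a b c x y => G a b x c y) = S5 w G := by
  unfold S5
  refine sum_congr rfl fun a _ => sum_congr rfl fun b _ => ?_
  rw [sum_comm]
  refine sum_congr rfl fun c _ => sum_congr rfl fun x _ => sum_congr rfl fun y _ => ?_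
  ring

theorem sw3 (G : V → V → V → V → V → ℝ) : S5 w (fun a b c x y => G a b c y x) = S5 w G := by
  unfold S5
  refine sum_congr rfl fun a _ => sum_congr rfl fun b _ => sum_congr rfl fun c _ => ?_
  rw [sum_comm]
  refine sum_congr rfl fun x _ => sum_congr rfl fun y _ => ?_
  ring

theorem S5_add (F G : V → V → V → V → V → ℝ) :
    S5 w (fun a b c x y => F a b c x y + G a b c x y) = S5 w F + S5 w G := by
  unfold S5
  simp only [mul_add, sum_add_distrib]

theorem S5_smul (t : ℝ) (F : V → V → V → V → V → ℝ) :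
    S5 w (fun a b c x y => t * F a b c x y) = t * S5 w F := by
  unfold S5
  simp only [mul_sum]
  refine sum_congr rfl fun a _ => sum_congr rfl fun b _ => sum_congr rfl fun c _ => sum_congr rfl fun x _ =>
    sum_congr rfl fun y _ => ?_
  ring

theorem S5_mono {w : V → ℝ} (hw : ∀ v, 0 ≤ w v) {F G : V → V → V → V → V → ℝ}
    (h : ∀ a b c x y, F a b c x y ≤ G a b c x y) : S5 w F ≤ S5 w G :=
  sum_le_sum fun a _ => sum_le_sum fun b _ => sum_le_sum fun c _ => sum_le_sum fun x _ => sum_le_sum fun y _ =>
    mul_le_mul_of_nonneg_left (h a b c x y)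
      (mul_nonneg (mul_nonneg (mul_nonneg (mul_nonneg (hw a) (hw b)) (hw c)) (hw x)) (hw y))

theorem S5_abc {w : V → ℝ} (hw : ∑ v, w v = 1) (F : V → V → V → ℝ) :
    S5 w (fun a b c _ _ => F a b c) = ∑ a, ∑ b, ∑ c, w a * w b * w c * F a b c := by
  unfold S5
  refine sum_congr rfl fun a _ => sum_congr rfl fun b _ => sum_congr rfl fun c _ => ?_
  have h : ∀ x, ∑ y, w a * w b * w c * w x * w y * F a b c = w x * (w a * w b * w c * F a b c) := by
    intro x
    have : ∀ y, w a * w b * w c * w x * w y * F a b c = w y * (w a * w b * w c * w x * F a b c) := fun y => by ring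
    rw [sum_congr rfl fun y _ => this y, ← sum_mul, hw]
    ring
  rw [sum_congr rfl fun x _ => h x, ← sum_mul, hw]
  ring

theorem S5_const {w : V → ℝ} (hw : ∑ v, w v = 1) (t : ℝ) : S5 w (fun _ _ _ _ _ => t) = t := by
  rw [S5_abc hw (fun _ _ _ => t)]
  have h1 : ∀ a b, ∑ c, w a * w b * w c * t = w b * (w a * t) := by
    intro a b
    have : ∀ c, w a * w b * w c * t = w c * (w a * w b * t) := fun c => by ring
    rw [sum_congr rfl fun c _ => this c, ← sum_mul, hw]
    ring
  simp only [h1]
  have h2 : ∀ a, ∑ b, w b * (w a * t) = w a * t := by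
    intro a
    rw [← sum_mul, hw, one_mul]
  simp only [h2]
  rw [← sum_mul, hw, one_mul]

def g10 (F : V → V → V → V → V → ℝ) (a b c x y : V) : ℝ :=
  F c x y a b
    + F b x y a c
    + F b c y a x
    + F b c x a y
    + F a x y b c
    + F a c y b x
    + F a c x b y
    + F a b y c x
    + F a b x c y
    + F a b c x y

theorem sym10 (F : V → V → V → V → V → ℝ) : S5 w (g10 F) = 10 * S5 w F := by
  have p0 : S5 w (fun a b c x y => F c x y a b) = S5 w F := (sw1 w (fun a b c x y => F b x y a c)).trans ((sw0 w (fun a b c x y => F a x y b c)).trans ((sw2 w (fun a b c x y => F a c y b x)).trans ((sw1 w (fun a b c x y => F a b y c x)).trans ((sw3 w (fun a b c x y => F a b x c y)).trans (sw2 w (fun a b c x y => F a b c x y))))))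
  have p1 : S5 w (fun a b c x y => F b x y a c) = S5 w F := (sw0 w (fun a b c x y => F a x y b c)).trans ((sw2 w (fun a b c x y => F a c y b x)).trans ((sw1 w (fun a b c x y => F a b y c x)).trans ((sw3 w (fun a b c x y => F a b x c y)).trans (sw2 w (fun a b c x y => F a b c x y)))))
  have p2 : S5 w (fun a b c x y => F b c y a x) = S5 w F := (sw0 w (fun a b c x y => F a c y b x)).trans ((sw1 w (fun a b c x y => F a b y c x)).trans ((sw3 w (fun a b c x y => F a b x c y)).trans (sw2 w (fun a b c x y => F a b c x y))))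
  have p3 : S5 w (fun a b c x y => F b c x a y) = S5 w F := (sw0 w (fun a b c x y => F a c x b y)).trans ((sw1 w (fun a b c x y => F a b x c y)).trans (sw2 w (fun a b c x y => F a b c x y)))
  have p4 : S5 w (fun a b c x y => F a x y b c) = S5 w F := (sw2 w (fun a b c x y => F a c y b x)).trans ((sw1 w (fun a b c x y => F a b y c x)).trans ((sw3 w (fun a b c x y => F a b x c y)).trans (sw2 w (fun a b c x y => F a b c x y))))
  have p5 : S5 w (fun a b c x y => F a c y b x) = S5 w F := (sw1 w (fun a b c x y => F a b y c x)).trans ((sw3 w (fun a b c x y => F a b x c y)).trans (sw2 w (fun a b c x y => F a b c x y)))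
  have p6 : S5 w (fun a b c x y => F a c x b y) = S5 w F := (sw1 w (fun a b c x y => F a b x c y)).trans (sw2 w (fun a b c x y => F a b c x y))
  have p7 : S5 w (fun a b c x y => F a b y c x) = S5 w F := (sw3 w (fun a b c x y => F a b x c y)).trans (sw2 w (fun a b c x y => F a b c x y))
  have p8 : S5 w (fun a b c x y => F a b x c y) = S5 w F := sw2 w (fun a b c x y => F a b c x y)
  have p9 : S5 w (fun a b c x y => F a b c x y) = S5 w F := rfl
  have e : S5 w (g10 F) =
    S5 w (fun a b c x y => F c x y a b) + S5 w (fun a b c x y => F b x y a c) + S5 w (fun a b c x y => F b c y a x) + S5 w (fun a b c x y => F b c x a y) + S5 w (fun a b c x y => F a x y b c) + S5 w (fun a b c x y => F a c y b x) + S5 w (fun a b c x y => F a c x b y) + S5 w (fun a b c x y => F a b y c x) + S5 w (fun a b c x y => F a b x c y) + S5 w (fun a b c x y => F a b c x y) := by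
    unfold S5 g10
    simp only [mul_add, sum_add_distrib]
  rw [e, p0, p1, p2, p3, p4, p5, p6, p7, p8]
  ring

def g15 (F : V → V → V → V → V → ℝ) (a b c x y : V) : ℝ :=
  F a b c x y
    + F a b x c y
    + F a b y c x
    + F b a c x y
    + F b a x c y
    + F b a y c x
    + F c a b x y
    + F c a x b y
    + F c a y b x
    + F x a b c y
    + F x a c b y
    + F x a y b c
    + F y a b c x
    + F y a c b x
    + F y a x b c

theorem sym15 (F : V → V → V → V → V → ℝ) : S5 w (g15 F) = 15 * S5 w F := by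
  have p0 : S5 w (fun a b c x y => F a b c x y) = S5 w F := rfl
  have p1 : S5 w (fun a b c x y => F a b x c y) = S5 w F := sw2 w (fun a b c x y => F a b c x y)
  have p2 : S5 w (fun a b c x y => F a b y c x) = S5 w F := (sw3 w (fun a b c x y => F a b x c y)).trans (sw2 w (fun a b c x y => F a b c x y))
  have p3 : S5 w (fun a b c x y => F b a c x y) = S5 w F := sw0 w (fun a b c x y => F a b c x y)
  have p4 : S5 w (fun a b c x y => F b a x c y) = S5 w F := (sw0 w (fun a b c x y => F a b x c y)).trans (sw2 w (fun a b c x y => F a b c x y))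
  have p5 : S5 w (fun a b c x y => F b a y c x) = S5 w F := (sw0 w (fun a b c x y => F a b y c x)).trans ((sw3 w (fun a b c x y => F a b x c y)).trans (sw2 w (fun a b c x y => F a b c x y)))
  have p6 : S5 w (fun a b c x y => F c a b x y) = S5 w F := (sw1 w (fun a b c x y => F b a c x y)).trans (sw0 w (fun a b c x y => F a b c x y))
  have p7 : S5 w (fun a b c x y => F c a x b y) = S5 w F := (sw1 w (fun a b c x y => F b a x c y)).trans ((sw0 w (fun a b c x y => F a b x c y)).trans (sw2 w (fun a b c x y => F a b c x y)))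
  have p8 : S5 w (fun a b c x y => F c a y b x) = S5 w F := (sw1 w (fun a b c x y => F b a y c x)).trans ((sw0 w (fun a b c x y => F a b y c x)).trans ((sw3 w (fun a b c x y => F a b x c y)).trans (sw2 w (fun a b c x y => F a b c x y))))
  have p9 : S5 w (fun a b c x y => F x a b c y) = S5 w F := (sw2 w (fun a b c x y => F c a b x y)).trans ((sw1 w (fun a b c x y => F b a c x y)).trans (sw0 w (fun a b c x y => F a b c x y)))
  have p10 : S5 w (fun a b c x y => F x a c b y) = S5 w F := (sw1 w (fun a b c x y => F x a b c y)).trans ((sw2 w (fun a b c x y => F c a b x y)).trans ((sw1 w (fun a b c x y => F b a c x y)).trans (sw0 w (fun a b c x y => F a b c x y))))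
  have p11 : S5 w (fun a b c x y => F x a y b c) = S5 w F := (sw2 w (fun a b c x y => F c a y b x)).trans ((sw1 w (fun a b c x y => F b a y c x)).trans ((sw0 w (fun a b c x y => F a b y c x)).trans ((sw3 w (fun a b c x y => F a b x c y)).trans (sw2 w (fun a b c x y => F a b c x y)))))
  have p12 : S5 w (fun a b c x y => F y a b c x) = S5 w F := (sw3 w (fun a b c x y => F x a b c y)).trans ((sw2 w (fun a b c x y => F c a b x y)).trans ((sw1 w (fun a b c x y => F b a c x y)).trans (sw0 w (fun a b c x y => F a b c x y))))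
  have p13 : S5 w (fun a b c x y => F y a c b x) = S5 w F := (sw1 w (fun a b c x y => F y a b c x)).trans ((sw3 w (fun a b c x y => F x a b c y)).trans ((sw2 w (fun a b c x y => F c a b x y)).trans ((sw1 w (fun a b c x y => F b a c x y)).trans (sw0 w (fun a b c x y => F a b c x y)))))
  have p14 : S5 w (fun a b c x y => F y a x b c) = S5 w F := (sw2 w (fun a b c x y => F y a c b x)).trans ((sw1 w (fun a b c x y => F y a b c x)).trans ((sw3 w (fun a b c x y => F x a b c y)).trans ((sw2 w (fun a b c x y => F c a b x y)).trans ((sw1 w (fun a b c x y => F b a c x y)).trans (sw0 w (fun a b c x y => F a b c x y))))))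
  have e : S5 w (g15 F) =
    S5 w (fun a b c x y => F a b c x y) + S5 w (fun a b c x y => F a b x c y) + S5 w (fun a b c x y => F a b y c x) + S5 w (fun a b c x y => F b a c x y) + S5 w (fun a b c x y => F b a x c y) + S5 w (fun a b c x y => F b a y c x) + S5 w (fun a b c x y => F c a b x y) + S5 w (fun a b c x y => F c a x b y) + S5 w (fun a b c x y => F c a y b x) + S5 w (fun a b c x y => F x a b c y) + S5 w (fun a b c x y => F x a c b y) + S5 w (fun a b c x y => F x a y b c) + S5 w (fun a b c x y => F y a b c x) + S5 w (fun a b c x y => F y a c b x) + S5 w (fun a b c x y => F y a x b c) := by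
    unfold S5 g15
    simp only [mul_add, sum_add_distrib]
  rw [e, p1, p2, p3, p4, p5, p6, p7, p8, p9, p10, p11, p12, p13, p14]
  ring

def g5 (F : V → V → V → V → V → ℝ) (a b c x y : V) : ℝ :=
  F b c x y a
    + F a c x y b
    + F a b x y c
    + F a b c y x
    + F a b c x y

theorem sym5 (F : V → V → V → V → V → ℝ) : S5 w (g5 F) = 5 * S5 w F := by
  have p0 : S5 w (fun a b c x y => F b c x y a) = S5 w F := (sw0 w (fun a b c x y => F a c x y b)).trans ((sw1 w (fun a b c x y => F a b x y c)).trans ((sw2 w (fun a b c x y => F a b c y x)).trans (sw3 w (fun a b c x y => F a b c x y))))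
  have p1 : S5 w (fun a b c x y => F a c x y b) = S5 w F := (sw1 w (fun a b c x y => F a b x y c)).trans ((sw2 w (fun a b c x y => F a b c y x)).trans (sw3 w (fun a b c x y => F a b c x y)))
  have p2 : S5 w (fun a b c x y => F a b x y c) = S5 w F := (sw2 w (fun a b c x y => F a b c y x)).trans (sw3 w (fun a b c x y => F a b c x y))
  have p3 : S5 w (fun a b c x y => F a b c y x) = S5 w F := sw3 w (fun a b c x y => F a b c x y)
  have p4 : S5 w (fun a b c x y => F a b c x y) = S5 w F := rfl
  have e : S5 w (g5 F) =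
    S5 w (fun a b c x y => F b c x y a) + S5 w (fun a b c x y => F a c x y b) + S5 w (fun a b c x y => F a b x y c) + S5 w (fun a b c x y => F a b c y x) + S5 w (fun a b c x y => F a b c x y) := by
    unfold S5 g5
    simp only [mul_add, sum_add_distrib]
  rw [e, p0, p1, p2, p3]
  ring

theorem abs_hyb {w : V → ℝ} (hw0 : ∀ v, 0 ≤ w v) (hw1 : ∑ v, w v = 1) {K : ℝ} (hK0 : 0 ≤ K)
    (f1 f2 f3 f4 bad : V → V → V → V → V → ℝ) (n1 : ∀ a b c x y, 0 ≤ f1 a b c x y)
    (n2 : ∀ a b c x y, 0 ≤ f2 a b c x y) (n3 : ∀ a b c x y, 0 ≤ f3 a b c x y) (n4 : ∀ a b c x y, 0 ≤ f4 a b c x y)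
    (hb : ∀ a b c x y, 0 ≤ bad a b c x y)
    (h : ∀ a b c x y, K ≤ (g10 f1 a b c x y + g10 f2 a b c x y) + (g15 f3 a b c x y + g5 f4 a b c x y)
      ∨ 1 ≤ bad a b c x y) :
    K - K * S5 w bad ≤ 10 * S5 w f1 + 10 * S5 w f2 + 15 * S5 w f3 + 5 * S5 w f4 := by
  have hp : ∀ a b c x y, (fun _ _ _ _ _ => K) a b c x y ≤ (g10 f1 a b c x y + g10 f2 a b c x y)
      + (g15 f3 a b c x y + (g5 f4 a b c x y + K * bad a b c x y)) := by
    intro a b c x y
    show K ≤ _
    rcases h a b c x y with h' | hs
    · have hb := mul_nonneg hK0 (hb a b c x y)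
      linarith
    · have hb : K ≤ K * bad a b c x y := le_mul_of_one_le_right hK0 hs
      have m1 : 0 ≤ g10 f1 a b c x y := by
        unfold g10
        linarith [n1 c x y a b, n1 b x y a c, n1 b c y a x, n1 b c x a y, n1 a x y b c, n1 a c y b x, n1 a c x b y, n1 a b y c x, n1 a b x c y, n1 a b c x y]
      have m2 : 0 ≤ g10 f2 a b c x y := by
        unfold g10
        linarith [n2 c x y a b, n2 b x y a c, n2 b c y a x, n2 b c x a y, n2 a x y b c, n2 a c y b x, n2 a c x b y, n2 a b y c x, n2 a b x c y, n2 a b c x y]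
      have m3 : 0 ≤ g15 f3 a b c x y := by
        unfold g15
        linarith [n3 a b c x y, n3 a b x c y, n3 a b y c x, n3 b a c x y, n3 b a x c y, n3 b a y c x, n3 c a b x y, n3 c a x b y, n3 c a y b x, n3 x a b c y, n3 x a c b y, n3 x a y b c, n3 y a b c x, n3 y a c b x, n3 y a x b c]
      have m4 : 0 ≤ g5 f4 a b c x y := by
        unfold g5
        linarith [n4 b c x y a, n4 a c x y b, n4 a b x y c, n4 a b c y x, n4 a b c x y]
      linarith
  have hI := S5_mono hw0 hp
  rw [S5_const hw1, S5_add w (fun a b c x y => g10 f1 a b c x y + g10 f2 a b c x y)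
      (fun a b c x y => g15 f3 a b c x y + (g5 f4 a b c x y + K * bad a b c x y)),
    S5_add w (fun a b c x y => g10 f1 a b c x y) (fun a b c x y => g10 f2 a b c x y),
    S5_add w (fun a b c x y => g15 f3 a b c x y) (fun a b c x y => g5 f4 a b c x y + K * bad a b c x y),
    S5_add w (fun a b c x y => g5 f4 a b c x y) (fun a b c x y => K * bad a b c x y),
    S5_smul w K bad] at hI
  have q1 : S5 w (fun a b c x y => g10 f1 a b c x y) = 10 * S5 w f1 := sym10 w f1
  have q2 : S5 w (fun a b c x y => g10 f2 a b c x y) = 10 * S5 w f2 := sym10 w f2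
  have q3 : S5 w (fun a b c x y => g15 f3 a b c x y) = 15 * S5 w f3 := sym15 w f3
  have q4 : S5 w (fun a b c x y => g5 f4 a b c x y) = 5 * S5 w f4 := sym5 w f4
  rw [q1, q2, q3, q4] at hI
  linarith

end

end

end Pool.Agent.Q113.Hyb
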