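import Pool.Agent.Q113.Hyb.Skip
import Pool.Agent.Q113.Hyb.Sum
import Pool.Agent.Q113.Cov.Fin

/-! The certificate of order seven combined with coloured structures of order five. -/

set_option autoImplicit false
set_option linter.unusedSectionVars false
set_option linter.unusedVariables false
set_option linter.unusedSimpArgs false
set_option maxHeartbeats 4000000
set_option maxRecDepth 100000
open Finset
open Pool.Agent.H122R2.N6 (Sy NoK4 Bt k4b)
open Pool.Agent.Y435.T7 (e3 hC hx)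
open Pool.Agent.Q113.Cov

namespace Pool.Agent.Q113.Hyb

noncomputable section

section
variable {V : Type} [Fintype V] (E : V → V → V → ℕ) (χ : V → ℕ)

def F1 (t1 : ℕ) (a b c x y : V) : ℕ := tb t1 (i1 (χ a) (χ b) (χ c) (hC E a b c x y))
def F2 (t2 : ℕ) (a b c x y : V) : ℕ := tb t2 (i2 (χ a) (χ b) (χ c) (E a b c) (χ x) (E a b x) (E a c x) (E b c x)
  (χ y) (E a b y) (E a c y) (E b c y))
def F3 (t3 : ℕ) (a b c x y : V) : ℕ := tb t3 (i3 (χ a) (χ b) (χ c) (E a b c) (χ x) (χ y) (E a x y))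
def F4 (t4 : ℕ) (a b c x y : V) : ℕ := tb t4 (i4 (χ a) (χ b) (χ c) (χ x) (E a b c) (E a b x) (E a c x) (E b c x) (χ y))

variable {E} {χ}

theorem hkf (hK : NoK4 E) (a b c x y : V) : hk (E a b c) (E a b x) (E a c x) (E b c x) (E a b y) (E a c y) (E b c y) (E a x y) (E b x y) (E c x y) = false := by
  have k : ∀ p q r s, E p q r + E p q s + E p r s + E q r s ≠ 4 := ne4 hK
  have n : ∀ p q r s : ℕ, p + q + r + s ≠ 4 → k4 p q r s = false := by
    intro p q r s h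
    unfold k4
    rw [← Bool.not_eq_true]
    intro h2
    rw [Nat.beq_eq] at h2
    apply h
    have : p + q + (r + s) = 4 := h2
    omega
  unfold hk
  rw [n _ _ _ _ (k a b c x), n _ _ _ _ (k a b c y), n _ _ _ _ (k a b x y), n _ _ _ _ (k a c x y), n _ _ _ _ (k b c x y)]
  rfl

theorem k4f (hK : NoK4 E) (a b c x : V) : k4 (E a b c) (E a b x) (E a c x) (E b c x) = false := by
  have k := ne4 hK a b c x
  unfold k4
  rw [← Bool.not_eq_true]
  intro h2
  rw [Nat.beq_eq] at h2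
  apply k
  have : E a b c + E a b x + (E a c x + E b c x) = 4 := h2
  omega

theorem point (hE : Sy E) (hK : NoK4 E) (hχ : ∀ v, χ v < 2) {t1 t2 t3 t4 K : ℕ}
    {sk : ℕ → ℕ → ℕ → ℕ → ℕ → ℕ → ℕ → ℕ → ℕ → ℕ → ℕ → ℕ → ℕ → ℕ → ℕ → Bool}
    (h : allF t1 t2 t3 t4 K sk = true) (a b c x y : V) (hs : sk (χ a) (χ b) (χ c) (χ x) (χ y) (E a b c) (E a b x) (E a c x) (E b c x) (E a b y) (E a c y) (E b c y) (E a x y) (E b x y) (E c x y) = false) :
    K ≤ (F1 E χ t1 c x y a b + F1 E χ t1 b x y a c + F1 E χ t1 b c y a x + F1 E χ t1 b c x a y + F1 E χ t1 a x y b c + F1 E χ t1 a c y b x + F1 E χ t1 a c x b y + F1 E χ t1 a b y c x + F1 E χ t1 a b x c y + F1 E χ t1 a b c x y)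
      + (F2 E χ t2 c x y a b + F2 E χ t2 b x y a c + F2 E χ t2 b c y a x + F2 E χ t2 b c x a y + F2 E χ t2 a x y b c + F2 E χ t2 a c y b x + F2 E χ t2 a c x b y + F2 E χ t2 a b y c x + F2 E χ t2 a b x c y + F2 E χ t2 a b c x y)
      + (F3 E χ t3 a b c x y + F3 E χ t3 a b x c y + F3 E χ t3 a b y c x + F3 E χ t3 b a c x y + F3 E χ t3 b a x c y + F3 E χ t3 b a y c x + F3 E χ t3 c a b x y + F3 E χ t3 c a x b y + F3 E χ t3 c a y b x + F3 E χ t3 x a b c y + F3 E χ t3 x a c b y + F3 E χ t3 x a y b c + F3 E χ t3 y a b c x + F3 E χ t3 y a c b x + F3 E χ t3 y a x b c)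
      + (F4 E χ t4 b c x y a + F4 E χ t4 a c x y b + F4 E χ t4 a b x y c + F4 E χ t4 a b c y x + F4 E χ t4 a b c x y) := by
  have h0 := allF_true h (hχ a) (hχ b) (hχ c) (hχ x) (hχ y) (lt2 hE a b c) (lt2 hE a b x) (lt2 hE a c x)
    (lt2 hE b c x) (lt2 hE a b y) (lt2 hE a c y) (lt2 hE b c y) (lt2 hE a x y) (lt2 hE b x y) (lt2 hE c x y)
    (hkf hK a b c x y) hs
  refine h0.trans (le_of_eq ?_)
  unfold F1 F2 F3 F4 hC tot
  simp only [hE.h132 a b c, hE.h213 a b c, hE.h231 a b c, hE.h312 a b c, hE.h132 a b x, hE.h213 a b x, hE.h231 a b x, hE.h312 a b x, hE.h132 a b y, hE.h213 a b y, hE.h231 a b y, hE.h312 a b y, hE.h132 a c x, hE.h213 a c x, hE.h231 a c x, hE.h312 a c x, hE.h132 a c y, hE.h213 a c y, hE.h231 a c y, hE.h312 a c y, hE.h132 a x y, hE.h213 a x y, hE.h231 a x y, hE.h312 a x y, hE.h132 b c x, hE.h213 b c x, hE.h231 b c x, hE.h312 b c x, hE.h132 b c y, hE.h213 b c y, hE.h231 b c y, hE.h312 b c y,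 hE.h132 b x y, hE.h213 b x y, hE.h231 b x y, hE.h312 b x y, hE.h132 c x y, hE.h213 c x y, hE.h231 c x y, hE.h312 c x y]
  generalize_proofs
  simp only [Nat.add_eq]
  ring


/-- the linear functional of a triple -/
def P1 (E : V → V → V → ℕ) (χ : V → ℕ) (q : ℕ → ℕ → ℤ) (qn : ℕ → ℤ) (a b c x y : V) : ℝ :=
  2 * (qv (q (χ a + 2 * χ b + 4 * χ c + 8 * E a b c)) (hC E a b c x y) : ℝ) - qn (χ a + 2 * χ b + 4 * χ c + 8 * E a b c)
def P2 (E : V → V → V → ℕ) (χ : V → ℕ) (G : List (List (List ℤ))) (a b c x y : V) : ℝ :=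
  ∑ k ∈ range 16, (nl G (χ a + 2 * χ b + 4 * χ c + 8 * E a b c) k (χ x + 2 * E a b x + 4 * E a c x + 8 * E b c x) : ℝ)
      * nl G (χ a + 2 * χ b + 4 * χ c + 8 * E a b c) k (χ y + 2 * E a b y + 4 * E a c y + 8 * E b c y)
def P3 (E : V → V → V → ℕ) (χ : V → ℕ) (G : List (List (List ℤ))) (a b c x y : V) : ℝ :=
  ∑ k ∈ range 16, (nl G (χ a) k (χ b + 2 * χ c + 4 * E a b c) : ℝ) * nl G (χ a) k (χ x + 2 * χ y + 4 * E a x y)

/-- the weight of the coloured edges -/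
def eU (E : V → V → V → ℕ) (χ : V → ℕ) (w : V → ℝ) : ℝ :=
  ∑ a, ∑ b, ∑ c, w a * w b * w c * ((χ a : ℝ) * χ b * χ c * E a b c)

theorem S5_P1 {w : V → ℝ} (hw : w ∈ stdSimplex ℝ V) {q : ℕ → ℕ → ℤ} {qn : ℕ → ℤ} (hE : Sy E) (hχ : ∀ v, χ v < 2)
    (hqn : ∀ i < 16, ∑ k ∈ range 20, q i k ^ 2 = qn i) :
    S5 w (P1 E χ q qn) ≤ ∑ a, ∑ b, ∑ c, w a * w b * w c * Zb E w a b c := by
  unfold S5
  refine sum_le_sum fun a _ => sum_le_sum fun b _ => sum_le_sum fun c _ => ?_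
  set τ := χ a + 2 * χ b + 4 * χ c + 8 * E a b c with hτ
  have hτ16 : τ < 16 := by
    have := hχ a; have := hχ b; have := hχ c; have := lt2 hE a b c
    omega
  set v : ℕ → ℝ := fun k => ∑ x, ∑ y, w x * w y * ((e3 (hC E a b c x y) k : ℝ) - 4224) with hv
  have e1 : ∑ x, ∑ y, w a * w b * w c * w x * w y * P1 E χ q qn a b c x y
      = w a * w b * w c * (2 * ∑ k ∈ range 20, (q τ k : ℝ) * v k - qn τ) := by
    have s1 : ∑ x, ∑ y, w x * w y * (qv (q τ) (hC E a b c x y) : ℝ) = ∑ k ∈ range 20, (q τ k : ℝ) * v k := by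
      unfold qv
      push_cast
      simp only [hv, mul_sum]
      calc ∑ x, ∑ y, ∑ k ∈ range 20, w x * w y * ((q τ k : ℝ) * ((e3 (hC E a b c x y) k : ℝ) - 4224))
          = ∑ x, ∑ k ∈ range 20, ∑ y, w x * w y * ((q τ k : ℝ) * ((e3 (hC E a b c x y) k : ℝ) - 4224)) :=
            sum_congr rfl fun x _ => sum_comm
        _ = ∑ k ∈ range 20, ∑ x, ∑ y, w x * w y * ((q τ k : ℝ) * ((e3 (hC E a b c x y) k : ℝ) - 4224)) := sum_comm
        _ = _ := sum_congr rfl fun k _ => sum_congr rfl fun x _ => sum_congr rfl fun y _ => by ring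
    have s2 : ∑ x, w x * ∑ y, w y = 1 := by
      rw [← sum_mul, hw.2, one_mul]
    have : ∀ x y, w a * w b * w c * w x * w y * P1 E χ q qn a b c x y
        = w a * w b * w c * (2 * (w x * w y * (qv (q τ) (hC E a b c x y) : ℝ)) - qn τ * (w x * w y)) := by
      intro x y
      unfold P1
      rw [← hτ]
      ring
    simp only [this]
    simp only [← mul_sum, sum_sub_distrib]
    rw [s1, s2]
    ring
  rw [e1]
  refine mul_le_mul_of_nonneg_left ?_ (mul_nonneg (mul_nonneg (hw.1 a) (hw.1 b)) (hw.1 c))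
  have h2 : (qn τ : ℝ) = ∑ k ∈ range 20, (q τ k : ℝ) ^ 2 := by
    rw [← hqn τ hτ16]
    push_cast
    rfl
  rw [h2]
  have h3 : Zb E w a b c = ∑ k ∈ range 20, v k ^ 2 := rfl
  rw [h3, mul_sum, ← sum_sub_distrib]
  refine sum_le_sum fun k _ => ?_
  nlinarith [sq_nonneg ((q τ k : ℝ) - v k)]

theorem S5_P2 {w : V → ℝ} (hw : w ∈ stdSimplex ℝ V) (G : List (List (List ℤ))) : 0 ≤ S5 w (P2 E χ G) := by
  unfold S5
  refine sum_nonneg fun a _ => sum_nonneg fun b _ => sum_nonneg fun c _ => ?_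
  have e1 : ∑ x, ∑ y, w a * w b * w c * w x * w y * P2 E χ G a b c x y
      = w a * w b * w c * ∑ k ∈ range 16, (∑ x, w x * (nl G (χ a + 2 * χ b + 4 * χ c + 8 * E a b c) k
        (χ x + 2 * E a b x + 4 * E a c x + 8 * E b c x) : ℝ)) ^ 2 := by
    have h : ∀ k, (∑ x, w x * (nl G (χ a + 2 * χ b + 4 * χ c + 8 * E a b c) k
        (χ x + 2 * E a b x + 4 * E a c x + 8 * E b c x) : ℝ)) ^ 2
        = ∑ x, ∑ y, w x * w y * ((nl G (χ a + 2 * χ b + 4 * χ c + 8 * E a b c) k (χ x + 2 * E a b x + 4 * E a c x + 8 * E b c x) : ℝ)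
      * nl G (χ a + 2 * χ b + 4 * χ c + 8 * E a b c) k (χ y + 2 * E a b y + 4 * E a c y + 8 * E b c y)) := by
      intro k
      rw [sq]
      simp only [sum_mul, mul_sum]
      refine sum_congr rfl fun x _ => sum_congr rfl fun y _ => ?_
      ring
    simp only [h, mul_sum]
    unfold P2
    simp only [mul_sum]
    calc _ = ∑ x, ∑ k ∈ range 16, ∑ y, w a * w b * w c * w x * w y * ((nl G (χ a + 2 * χ b + 4 * χ c + 8 * E a b c) k (χ x + 2 * E a b x + 4 * E a c x + 8 * E b c x) : ℝ)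
      * nl G (χ a + 2 * χ b + 4 * χ c + 8 * E a b c) k (χ y + 2 * E a b y + 4 * E a c y + 8 * E b c y)) :=
            sum_congr rfl fun x _ => sum_comm
      _ = _ := by
        rw [sum_comm]
        refine sum_congr rfl fun k _ => sum_congr rfl fun x _ => sum_congr rfl fun y _ => ?_
        ring
  rw [e1]
  exact mul_nonneg (mul_nonneg (mul_nonneg (hw.1 a) (hw.1 b)) (hw.1 c)) (sum_nonneg fun k _ => sq_nonneg _)

theorem S5_P3 {w : V → ℝ} (hw : w ∈ stdSimplex ℝ V) (G : List (List (List ℤ))) : 0 ≤ S5 w (P3 E χ G) := by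
  unfold S5
  refine sum_nonneg fun a _ => ?_
  have e1 : ∑ b, ∑ c, ∑ x, ∑ y, w a * w b * w c * w x * w y * P3 E χ G a b c x y
      = w a * ∑ k ∈ range 16, (∑ b, ∑ c, w b * w c * (nl G (χ a) k (χ b + 2 * χ c + 4 * E a b c) : ℝ)) ^ 2 := by
    have h : ∀ k, (∑ b, ∑ c, w b * w c * (nl G (χ a) k (χ b + 2 * χ c + 4 * E a b c) : ℝ)) ^ 2
        = ∑ b, ∑ c, ∑ x, ∑ y, w b * w c * w x * w y * ((nl G (χ a) k (χ b + 2 * χ c + 4 * E a b c) : ℝ)
          * nl G (χ a) k (χ x + 2 * χ y + 4 * E a x y)) := by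
      intro k
      rw [sq]
      simp only [sum_mul, mul_sum]
      refine sum_congr rfl fun b _ => sum_congr rfl fun c _ => sum_congr rfl fun x _ => sum_congr rfl fun y _ => ?_
      ring
    simp only [h, mul_sum]
    unfold P3
    simp only [mul_sum]
    calc _ = ∑ b, ∑ c, ∑ x, ∑ k ∈ range 16, ∑ y, w a * w b * w c * w x * w y * ((nl G (χ a) k (χ b + 2 * χ c + 4 * E a b c) : ℝ) * nl G (χ a) k (χ x + 2 * χ y + 4 * E a x y)) :=
            sum_congr rfl fun b _ => sum_congr rfl fun c _ => sum_congr rfl fun x _ => sum_comm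
      _ = ∑ b, ∑ c, ∑ k ∈ range 16, ∑ x, ∑ y, w a * w b * w c * w x * w y * ((nl G (χ a) k (χ b + 2 * χ c + 4 * E a b c) : ℝ) * nl G (χ a) k (χ x + 2 * χ y + 4 * E a x y)) :=
            sum_congr rfl fun b _ => sum_congr rfl fun c _ => sum_comm
      _ = ∑ b, ∑ k ∈ range 16, ∑ c, ∑ x, ∑ y, w a * w b * w c * w x * w y * ((nl G (χ a) k (χ b + 2 * χ c + 4 * E a b c) : ℝ) * nl G (χ a) k (χ x + 2 * χ y + 4 * E a x y)) :=
            sum_congr rfl fun b _ => sum_comm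
      _ = _ := by
        rw [sum_comm]
        refine sum_congr rfl fun k _ => sum_congr rfl fun b _ => sum_congr rfl fun c _ => sum_congr rfl fun x _ =>
          sum_congr rfl fun y _ => ?_
        ring
  rw [e1]
  exact mul_nonneg (hw.1 a) (sum_nonneg fun k _ => sq_nonneg _)

theorem S5_P4 {w : V → ℝ} {N D : ℝ} (hN : ∑ v, w v * (D * χ v - N) = 0) (C : V → V → V → V → ℝ) :
    S5 w (fun a b c x y => C a b c x * (D * χ y - N)) = 0 := by
  unfold S5
  refine sum_eq_zero fun a _ => sum_eq_zero fun b _ => sum_eq_zero fun c _ => sum_eq_zero fun x _ => ?_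
  have : ∀ y, w a * w b * w c * w x * w y * (C a b c x * (D * χ y - N))
      = w a * w b * w c * w x * C a b c x * (w y * (D * χ y - N)) := fun y => by ring
  rw [sum_congr rfl fun y _ => this y, ← mul_sum, hN, mul_zero]


theorem hyb (hE : Sy E) (hK : NoK4 E) (hχ : ∀ v, χ v < 2) {w : V → ℝ} (hw : w ∈ stdSimplex ℝ V)
    {t1 t2 t3 t4 K S N D th la o1 o2 o3 o4 : ℕ} {q : ℕ → ℕ → ℤ} {qn : ℕ → ℤ} {G F : List (List (List ℤ))}
    {C : List ℤ} {sk : ℕ → ℕ → ℕ → ℕ → ℕ → ℕ → ℕ → ℕ → ℕ → ℕ → ℕ → ℕ → ℕ → ℕ → ℕ → Bool}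
    (hqn : ∀ i < 16, ∑ k ∈ range 20, q i k ^ 2 = qn i)
    (h1 : all1 t1 S th la o1 q qn = true) (h2 : all2 t2 o2 G = true) (h3 : all3 t3 o3 F = true)
    (h4 : all4 t4 o4 N D C = true) (hF : allF t1 t2 t3 t4 K sk = true)
    (hN : ∑ v, w v * ((D : ℝ) * χ v - N) = 0) (bad : V → V → V → V → V → ℝ)
    (hbad : ∀ a b c x y, 0 ≤ bad a b c x y)
    (hsk : ∀ a b c x y, sk (χ a) (χ b) (χ c) (χ x) (χ y) (E a b c) (E a b x) (E a c x) (E b c x) (E a b y) (E a c y) (E b c y) (E a x y) (E b x y) (E c x y) = false ∨ 1 ≤ bad a b c x y) :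
    (K : ℝ) - 10 * o1 - 10 * o2 - 15 * o3 - 5 * o4 - K * S5 w bad ≤ 120 * (S * (∑ a, ∑ b, ∑ c, w a * w b * w c * Zb E w a b c)
      + th * (5 - 9 * T3 E w w w) + la * eU E χ w) := by
  have hK0 : (0 : ℝ) ≤ K := Nat.cast_nonneg _
  have hI := abs_hyb hw.1 hw.2 hK0 (fun a b c x y => (F1 E χ t1 a b c x y : ℝ)) (fun a b c x y => (F2 E χ t2 a b c x y : ℝ))
    (fun a b c x y => (F3 E χ t3 a b c x y : ℝ)) (fun a b c x y => (F4 E χ t4 a b c x y : ℝ)) bad
    (fun a b c x y => Nat.cast_nonneg _) (fun a b c x y => Nat.cast_nonneg _) (fun a b c x y => Nat.cast_nonneg _)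
    (fun a b c x y => Nat.cast_nonneg _) hbad (fun a b c x y => by
      rcases hsk a b c x y with hs | hs
      · left
        have h2 := (Nat.cast_le (α := ℝ)).2 (point hE hK hχ hF a b c x y hs)
        refine h2.trans (le_of_eq ?_)
        unfold g10 g15 g5
        simp only [Nat.cast_add]
        ac_rfl
      · exact Or.inr hs)
  -- tables one
  have u1 : S5 w (fun a b c x y => (F1 E χ t1 a b c x y : ℝ)) ≤ o1 + 12 * (S * (∑ a, ∑ b, ∑ c, w a * w b * w c * Zb E w a b c)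
      + th * (5 - 9 * T3 E w w w) + la * eU E χ w) := by
    have hq : ∀ a b c x y, (fun a b c x y => (F1 E χ t1 a b c x y : ℝ)) a b c x y ≤ (fun _ _ _ _ _ => (o1 : ℝ)) a b c x y
        + 12 * ((S * P1 E χ q qn a b c x y) + ((fun a b c _ _ => (th * (5 - 9 * (E a b c : ℝ))
          + la * ((χ a : ℝ) * χ b * χ c * E a b c))) a b c x y)) := by
      intro a b c x y
      have h := all1_true h1 (hχ a) (hχ b) (hχ c) (lt2 hE a b c) (lt2 hE a b x) (lt2 hE a c x)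
        (lt2 hE b c x) (lt2 hE a b y) (lt2 hE a c y) (lt2 hE b c y) (lt2 hE a x y) (lt2 hE b x y) (lt2 hE c x y)
        (hkf hK a b c x y)
      have h' : ((tb t1 (i1 (χ a) (χ b) (χ c) (hC E a b c x y)) : ℤ) : ℝ) ≤ ((o1 + 12 * (S * (2 * qv (q (χ a + 2 * χ b + 4 * χ c + 8 * E a b c)) (hC E a b c x y)
    - qn (χ a + 2 * χ b + 4 * χ c + 8 * E a b c)) + th * (5 - 9 * (E a b c : ℤ)) + la * ((χ a : ℤ) * χ b * χ c * E a b c)) : ℤ) : ℝ) := by
        exact_mod_cast h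
      push_cast at h'
      unfold P1
      show (tb t1 (i1 (χ a) (χ b) (χ c) (hC E a b c x y)) : ℝ) ≤ (o1 : ℝ) + _
      linarith
    refine (S5_mono hw.1 hq).trans (le_of_eq_of_le ?_ (add_le_add_right (mul_le_mul_of_nonneg_left
      (add_le_add_left (add_le_add_left (mul_le_mul_of_nonneg_left (S5_P1 hw hE hχ hqn) (Nat.cast_nonneg S)) _) _)
      (by norm_num : (0 : ℝ) ≤ 12)) _))
    rw [S5_add w (fun _ _ _ _ _ => (o1 : ℝ)), S5_const hw.2, S5_smul, S5_add w (fun a b c x y => S * P1 E χ q qn a b c x y),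
      S5_smul, S5_abc hw.2 (fun a b c => (th * (5 - 9 * (E a b c : ℝ)) + la * ((χ a : ℝ) * χ b * χ c * E a b c)))]
    have l0 : ∑ a, ∑ b, ∑ c, w a * w b * w c * (1 : ℝ) = 1 := by
      rw [← S5_abc hw.2 (fun _ _ _ => 1), S5_const hw.2]
    have : ∑ a, ∑ b, ∑ c, w a * w b * w c * (th * (5 - 9 * (E a b c : ℝ)) + la * ((χ a : ℝ) * χ b * χ c * E a b c))
        = th * (5 * (∑ a, ∑ b, ∑ c, w a * w b * w c * (1 : ℝ)) - 9 * T3 E w w w) + la * eU E χ w := by
      unfold T3 eU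
      simp only [mul_sum, ← sum_add_distrib, ← sum_sub_distrib]
      refine sum_congr rfl fun a _ => sum_congr rfl fun b _ => sum_congr rfl fun c _ => ?_
      ring
    rw [this, l0]
    ring
  have u2 : S5 w (fun a b c x y => (F2 E χ t2 a b c x y : ℝ)) ≤ o2 := by
    have hq : ∀ a b c x y, (fun a b c x y => (F2 E χ t2 a b c x y : ℝ)) a b c x y ≤ (fun _ _ _ _ _ => (o2 : ℝ)) a b c x y
        + (-12) * P2 E χ G a b c x y := by
      intro a b c x y
      have h := all2_true h2 (hχ a) (hχ b) (hχ c) (lt2 hE a b c) (hχ x) (lt2 hE a b x) (lt2 hE a c x)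
        (lt2 hE b c x) (hχ y) (lt2 hE a b y) (lt2 hE a c y) (lt2 hE b c y) (k4f hK a b c x) (k4f hK a b c y)
      have h' : ((F2 E χ t2 a b c x y : ℤ) : ℝ) ≤ ((o2 - 12 * ∑ k ∈ range 16,
          nl G (χ a + 2 * χ b + 4 * χ c + 8 * E a b c) k (χ x + 2 * E a b x + 4 * E a c x + 8 * E b c x)
            * nl G (χ a + 2 * χ b + 4 * χ c + 8 * E a b c) k (χ y + 2 * E a b y + 4 * E a c y + 8 * E b c y) : ℤ) : ℝ) := by
        exact_mod_cast h
      push_cast at h'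
      unfold P2
      show (F2 E χ t2 a b c x y : ℝ) ≤ (o2 : ℝ) + _
      linarith
    have h5 := S5_mono hw.1 hq
    rw [S5_add w (fun _ _ _ _ _ => (o2 : ℝ)), S5_const hw.2, S5_smul] at h5
    have := S5_P2 (E := E) (χ := χ) hw G
    linarith
  have u3 : S5 w (fun a b c x y => (F3 E χ t3 a b c x y : ℝ)) ≤ o3 := by
    have hq : ∀ a b c x y, (fun a b c x y => (F3 E χ t3 a b c x y : ℝ)) a b c x y ≤ (fun _ _ _ _ _ => (o3 : ℝ)) a b c x y
        + (-8) * P3 E χ F a b c x y := by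
      intro a b c x y
      have h := all3_true h3 (hχ a) (hχ b) (hχ c) (lt2 hE a b c) (hχ x) (hχ y) (lt2 hE a x y)
      have h' : ((F3 E χ t3 a b c x y : ℤ) : ℝ) ≤ ((o3 - 8 * ∑ k ∈ range 16,
          nl F (χ a) k (χ b + 2 * χ c + 4 * E a b c) * nl F (χ a) k (χ x + 2 * χ y + 4 * E a x y) : ℤ) : ℝ) := by
        exact_mod_cast h
      push_cast at h'
      unfold P3
      show (F3 E χ t3 a b c x y : ℝ) ≤ (o3 : ℝ) + _
      linarith
    have h5 := S5_mono hw.1 hq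
    rw [S5_add w (fun _ _ _ _ _ => (o3 : ℝ)), S5_const hw.2, S5_smul] at h5
    have := S5_P3 (E := E) (χ := χ) hw F
    linarith
  have u4 : S5 w (fun a b c x y => (F4 E χ t4 a b c x y : ℝ)) ≤ o4 := by
    have hq : ∀ a b c x y, (fun a b c x y => (F4 E χ t4 a b c x y : ℝ)) a b c x y ≤ (fun _ _ _ _ _ => (o4 : ℝ)) a b c x y
        + 24 * ((fun a b c x => ((C.getD (i4 (χ a) (χ b) (χ c) (χ x) (E a b c) (E a b x) (E a c x) (E b c x) 0) 0 : ℤ) : ℝ)) a b c x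
          * ((D : ℝ) * χ y - N)) := by
      intro a b c x y
      have h := all4_true h4 (hχ a) (hχ b) (hχ c) (hχ x) (lt2 hE a b c) (lt2 hE a b x) (lt2 hE a c x)
        (lt2 hE b c x) (hχ y) (k4f hK a b c x)
      have h' : ((F4 E χ t4 a b c x y : ℤ) : ℝ) ≤ ((o4 + 24 * (C.getD (i4 (χ a) (χ b) (χ c) (χ x) (E a b c) (E a b x) (E a c x) (E b c x) 0) 0
          * (D * χ y - N)) : ℤ) : ℝ) := by
        exact_mod_cast h
      push_cast at h'
      show (F4 E χ t4 a b c x y : ℝ) ≤ (o4 : ℝ) + _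
      linarith
    have h5 := S5_mono hw.1 hq
    rw [S5_add w (fun _ _ _ _ _ => (o4 : ℝ)), S5_const hw.2, S5_smul, S5_P4 (χ := χ) hN] at h5
    linarith
  linarith

end

end

end Pool.Agent.Q113.Hyb
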